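import Pool.Agent.H46.SB.Cross
import Pool.Agent.H81.L2.Kron

/-!
# Tables of the transforms `Fk n k` (kernels of the sheared linear programming bound): definitions

Grid ratio `p = 21/20`, `q = p²`, `hh = log q`.  `T n k m` are the trapezoid sums: `Fk n k m` is very close
to `hh ^ n * T n k m`.  Tables have the scale `2^256`.
-/

namespace H81.SG

open MeasureTheory H46.SB

noncomputable def p : ℝ := 21 / 20

noncomputable def q : ℝ := 441 / 400

noncomputable def hh : ℝ := Real.log (441 / 400)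

/-- trapezoid sums -/
noncomputable def T : ℕ → ℕ → ℝ → ℝ
  | 0, k, m => m ^ k * Real.exp (-m)
  | n + 1, k, m => ∑' i : ℤ, Real.exp (-(q ^ i)) * T n k (m * p ^ (-i))

/-- the constant in the error of the trapezoid rule -/
noncomputable def A (k : ℕ) : ℝ := ((k + 1).factorial : ℝ) * (3 / 2) ^ (k + 1) / 2 ^ 134

/-- `g` is a table of `exp (-(q^i))`, `i = 52, 51, …` -/
def GOK (g : List ℕ) : Prop :=
  ∀ r (h : r < g.length), (g[r] : ℝ) / 2 ^ 256 ≤ Real.exp (-(q ^ ((52 : ℤ) - r))) ∧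
    Real.exp (-(q ^ ((52 : ℤ) - r))) ≤ (g[r] : ℝ) / 2 ^ 256 + 1 / 2 ^ 230

/-- `t` is a table of `T n k (p^j)`, `j = b, b - 1, …` -/
def TOK (k n b : ℕ) (ε : ℝ) (t : List ℕ) : Prop :=
  ∀ i (h : i < t.length), (t[i] : ℝ) / 2 ^ 256 ≤ T n k (p ^ ((b : ℤ) - i)) ∧
    T n k (p ^ ((b : ℤ) - i)) ≤ (t[i] : ℝ) / 2 ^ 256 + ε / p ^ ((b : ℤ) - i)

/-- `E` is a table of `exp (-(p^j))`, `j = 107, 106, …` -/
def EOK (E : List ℕ) : Prop :=
  ∀ i (h : i < E.length), (E[i] : ℝ) / 2 ^ 256 ≤ Real.exp (-(p ^ ((107 : ℤ) - i))) ∧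
    Real.exp (-(p ^ ((107 : ℤ) - i))) ≤ (E[i] : ℝ) / 2 ^ 256 + 1 / 2 ^ 236

/-- the table of the next `T`: coefficients of the product, window `52` -/
def stepL (g t : List ℕ) : List ℕ :=
  (List.range (t.length - 52)).map fun i => L2.cf g t (i + 52) /
    115792089237316195423570985008687907853269984665640564039457584007913129639936

end H81.SG
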