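import Pool.Agent.H81.SG.Defs

/-!
# Module ETAB: certified table of `exp (-(p^j))`, scale `2^256`

Adapt `Pool/Agent/H81/L2/ExpTab.lean` (complete proof there with exponents `100`, `121`).  Now
`x_j = exp (-(p^j))`, `x_(j+1)^20 = x_j^21`.  `e1 = ⌊2^256/e⌋`; `e1_bounds` for instance with
`Real.exp_bound` or the exponential series at `1` (60 terms), `norm_num`.
-/

namespace H81.SG

/-- `⌊2^256 / e⌋` -/
def e1 : ℕ := 42597529080697662913911602080600932014987715856510989744817822076425378192109

theorem e1_bounds : (e1 : ℝ) / 2 ^ 256 ≤ Real.exp (-1) ∧ Real.exp (-1) ≤ ((e1 : ℝ) + 1) / 2 ^ 256 := by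
  have h := Real.exp_bound (x := -1) (by norm_num) (n := 60) (by norm_num)
  rw [abs_le] at h
  obtain ⟨h1, h2⟩ := h
  simp only [Finset.sum_range_succ, Finset.sum_range_zero, Nat.factorial] at h1 h2
  norm_num at h1 h2
  unfold e1
  constructor
  · norm_num
    linarith
  · norm_num
    linarith

/-- going up: `x` belongs to the exponent `j + 1`, the next entry `y` to `j` -/
def chkUp (l : List ℕ) : Bool :=
  match l with
  | [] => true
  | [_] => true
  | x :: y :: rest =>
    Nat.ble (x ^ 20 * 115792089237316195423570985008687907853269984665640564039457584007913129639936) (y ^ 21) &&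
      Nat.ble ((y + 1048576) ^ 21)
        ((x + 1048576) ^ 20 * 115792089237316195423570985008687907853269984665640564039457584007913129639936) &&
        chkUp (y :: rest)

/-- going down: `x` belongs to the exponent `j`, the next entry `y` to `j - 1` -/
def chkDown (l : List ℕ) : Bool :=
  match l with
  | [] => true
  | [_] => true
  | x :: y :: rest =>
    Nat.ble (y ^ 21) (x ^ 20 * 115792089237316195423570985008687907853269984665640564039457584007913129639936) &&
      Nat.ble ((x + 1048576) ^ 20 * 115792089237316195423570985008687907853269984665640564039457584007913129639936)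
        ((y + 1048576) ^ 21) &&
        chkDown (y :: rest)

theorem et_up_step (R : ℕ) (hR : 0 < R) (E1 E0 : ℝ) (hE1 : 0 ≤ E1) (hE0 : 0 ≤ E0)
    (hE : E1 ^ 20 = E0 ^ 21) (x y c d : ℕ) (h1 : x ^ 20 * R ≤ y ^ 21)
    (h2 : (y + c) ^ 21 ≤ (x + d) ^ 20 * R) (hy : (y : ℝ) / R ≤ E0)
    (hy' : E0 ≤ ((y : ℝ) + c) / R) : (x : ℝ) / R ≤ E1 ∧ E1 ≤ ((x : ℝ) + d) / R := by
  have hR' : (0 : ℝ) < R := by exact_mod_cast hR
  have h1' : (x : ℝ) ^ 20 * R ≤ (y : ℝ) ^ 21 := by exact_mod_cast h1
  have h2' : ((y : ℝ) + c) ^ 21 ≤ ((x : ℝ) + d) ^ 20 * R := by exact_mod_cast h2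
  constructor
  · rw [← pow_le_pow_iff_left₀ (by positivity) hE1 (by norm_num : (20 : ℕ) ≠ 0), hE]
    refine le_trans ?_ (pow_le_pow_left₀ (by positivity) hy 21)
    rw [div_pow, div_pow, div_le_div_iff₀ (by positivity) (by positivity)]
    calc (x : ℝ) ^ 20 * R ^ 21 = ((x : ℝ) ^ 20 * R) * R ^ 20 := by ring
      _ ≤ (y : ℝ) ^ 21 * R ^ 20 := mul_le_mul_of_nonneg_right h1' (by positivity)
  · rw [← pow_le_pow_iff_left₀ hE1 (by positivity) (by norm_num : (20 : ℕ) ≠ 0), hE]
    refine le_trans (pow_le_pow_left₀ hE0 hy' 21) ?_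
    rw [div_pow, div_pow, div_le_div_iff₀ (by positivity) (by positivity)]
    calc ((y : ℝ) + c) ^ 21 * R ^ 20 ≤ (((x : ℝ) + d) ^ 20 * R) * R ^ 20 :=
          mul_le_mul_of_nonneg_right h2' (by positivity)
      _ = ((x : ℝ) + d) ^ 20 * R ^ 21 := by ring

theorem et_down_step (R : ℕ) (hR : 0 < R) (E1 E0 : ℝ) (hE1 : 0 ≤ E1) (hE0 : 0 ≤ E0)
    (hE : E1 ^ 20 = E0 ^ 21) (x y c d : ℕ) (h1 : y ^ 21 ≤ x ^ 20 * R)
    (h2 : (x + c) ^ 20 * R ≤ (y + d) ^ 21) (hx : (x : ℝ) / R ≤ E1)
    (hx' : E1 ≤ ((x : ℝ) + c) / R) : (y : ℝ) / R ≤ E0 ∧ E0 ≤ ((y : ℝ) + d) / R := by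
  have hR' : (0 : ℝ) < R := by exact_mod_cast hR
  have h1' : (y : ℝ) ^ 21 ≤ (x : ℝ) ^ 20 * R := by exact_mod_cast h1
  have h2' : ((x : ℝ) + c) ^ 20 * R ≤ ((y : ℝ) + d) ^ 21 := by exact_mod_cast h2
  constructor
  · rw [← pow_le_pow_iff_left₀ (by positivity) hE0 (by norm_num : (21 : ℕ) ≠ 0), ← hE]
    refine le_trans ?_ (pow_le_pow_left₀ (by positivity) hx 20)
    rw [div_pow, div_pow, div_le_div_iff₀ (by positivity) (by positivity)]
    calc (y : ℝ) ^ 21 * R ^ 20 ≤ ((x : ℝ) ^ 20 * R) * R ^ 20 :=
          mul_le_mul_of_nonneg_right h1' (by positivity)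
      _ = (x : ℝ) ^ 20 * R ^ 21 := by ring
  · rw [← pow_le_pow_iff_left₀ hE0 (by positivity) (by norm_num : (21 : ℕ) ≠ 0), ← hE]
    refine le_trans (pow_le_pow_left₀ hE1 hx' 20) ?_
    rw [div_pow, div_pow, div_le_div_iff₀ (by positivity) (by positivity)]
    calc ((x : ℝ) + c) ^ 20 * R ^ 21 = (((x : ℝ) + c) ^ 20 * R) * R ^ 20 := by ring
      _ ≤ ((y : ℝ) + d) ^ 21 * R ^ 20 := mul_le_mul_of_nonneg_right h2' (by positivity)

/-- the exponential at the exponent `k` -/
noncomputable def etE (k : ℤ) : ℝ := Real.exp (-(p ^ k))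

theorem etE_pos (k : ℤ) : 0 < etE k := Real.exp_pos _

theorem etE_succ (k : ℤ) : etE (k + 1) ^ 20 = etE k ^ 21 := by
  unfold etE
  rw [← Real.exp_nat_mul, ← Real.exp_nat_mul]
  congr 1
  have hq : p ≠ 0 := by unfold p; norm_num
  rw [zpow_add_one₀ hq]
  unfold p
  push_cast
  ring

theorem etE_pred (k : ℤ) : etE k ^ 20 = etE (k - 1) ^ 21 := by
  have := etE_succ (k - 1)
  rwa [sub_add_cancel] at this

/-- the value `v` is right at `k` with error `c` -/
def etOK (c : ℕ) (k : ℤ) (v : ℕ) : Prop :=
  (v : ℝ) / (115792089237316195423570985008687907853269984665640564039457584007913129639936 : ℕ) ≤ etE k ∧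
    etE k ≤ ((v : ℝ) + c) / (115792089237316195423570985008687907853269984665640564039457584007913129639936 : ℕ)

theorem etOK_mono {c c' : ℕ} (hc : c ≤ c') {k : ℤ} {v : ℕ} (h : etOK c k v) :
    etOK c' k v := by
  refine ⟨h.1, h.2.trans ?_⟩
  have : (c : ℝ) ≤ c' := by exact_mod_cast hc
  gcongr

theorem et_up_list : ∀ (l : List ℕ) (hne : l ≠ []), chkUp l = true →
    etOK 1048576 0 (l.getLast hne) →
    ∀ i (hi : i < l.length), etOK 1048576 ((l.length : ℤ) - 1 - i) l[i] := by
  intro l
  induction l with
  | nil => intro hne; exact absurd rfl hne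
  | cons x l ih =>
    intro hne hchk hlast i hi
    cases l with
    | nil =>
      have hi0 : i = 0 := by simpa using hi
      subst hi0
      simpa using hlast
    | cons y rest =>
      rw [chkUp] at hchk
      simp only [Bool.and_eq_true] at hchk
      obtain ⟨⟨h1, h2⟩, h3⟩ := hchk
      have h1' := Nat.le_of_ble_eq_true h1
      have h2' := Nat.le_of_ble_eq_true h2
      have hlast' : etOK 1048576 0 ((y :: rest).getLast (by simp)) := by
        rw [List.getLast_cons (by simp)] at hlast
        exact hlast
      have IH := ih (by simp) h3 hlast'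
      cases i with
      | zero =>
        have h0 := IH 0 (by simp)
        simp only [List.length_cons, List.getElem_cons_zero, Nat.cast_add, Nat.cast_one,
          Nat.cast_zero] at h0
        have hk : ((rest.length : ℤ) + 1 - 1 - 0) = rest.length := by ring
        rw [hk] at h0
        have h5 := et_up_step 115792089237316195423570985008687907853269984665640564039457584007913129639936 (by norm_num)
          (etE ((rest.length : ℤ) + 1)) (etE rest.length) (etE_pos _).le (etE_pos _).le
          (etE_succ _) x y 1048576 1048576 h1' h2' h0.1 h0.2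
        have hk2 : (((x :: y :: rest).length : ℤ) - 1 - ((0 : ℕ) : ℤ)) = (rest.length : ℤ) + 1 := by
          simp only [List.length_cons]; push_cast; ring
        rw [hk2]
        exact h5
      | succ j =>
        have hj : j < (y :: rest).length := by simpa using hi
        have h0 := IH j hj
        have hk2 : (((x :: y :: rest).length : ℤ) - 1 - ((j + 1 : ℕ) : ℤ)) =
            ((y :: rest).length : ℤ) - 1 - j := by
          simp only [List.length_cons]; push_cast; ring
        rw [hk2]
        exact h0

theorem et_down_list : ∀ (l : List ℕ) (k : ℤ), chkDown l = true →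
    (∀ x rest, l = x :: rest → etOK 1048576 k x) →
    ∀ i (hi : i < l.length), etOK 1048576 (k - i) l[i] := by
  intro l
  induction l with
  | nil => intro k _ _ i hi; simp at hi
  | cons x l ih =>
    intro k hchk hhead i hi
    have hx := hhead x l rfl
    cases l with
    | nil =>
      have hi0 : i = 0 := by simpa using hi
      subst hi0
      simpa using hx
    | cons y rest =>
      rw [chkDown] at hchk
      simp only [Bool.and_eq_true] at hchk
      obtain ⟨⟨h1, h2⟩, h3⟩ := hchk
      have h1' := Nat.le_of_ble_eq_true h1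
      have h2' := Nat.le_of_ble_eq_true h2
      have hy : etOK 1048576 (k - 1) y :=
        et_down_step 115792089237316195423570985008687907853269984665640564039457584007913129639936 (by norm_num)
          (etE k) (etE (k - 1)) (etE_pos _).le (etE_pos _).le
          (etE_pred _) x y 1048576 1048576 h1' h2' hx.1 hx.2
      cases i with
      | zero => simpa using hx
      | succ j =>
        have hj : j < (y :: rest).length := by simpa using hi
        have h0 := ih (k - 1) h3 (by
          intro x' rest' heq
          rw [List.cons.injEq] at heq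
          rw [← heq.1]; exact hy) j hj
        have hk2 : (k - ((j + 1 : ℕ) : ℤ)) = k - 1 - j := by push_cast; ring
        rw [hk2]
        exact h0

theorem eok_of_chk {l1 l2 : List ℕ} (hl : l1.length = 107) (h1 : chkUp (l1 ++ [e1]) = true)
    (h2 : chkDown (e1 :: l2) = true) : EOK (l1 ++ e1 :: l2) := by
  have hR256 : ((115792089237316195423570985008687907853269984665640564039457584007913129639936 : ℕ) : ℝ) = 2 ^ 256 := by norm_num
  have hbase : etOK 1048576 0 e1 := by
    have h0 : etOK 1 0 e1 := by
      unfold etOK etE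
      rw [hR256, zpow_zero]
      have := e1_bounds
      refine ⟨this.1, this.2.trans (le_of_eq ?_)⟩
      norm_num
    exact etOK_mono (by norm_num) h0
  have key : ∀ i (hi : i < (l1 ++ e1 :: l2).length),
      etOK 1048576 ((l1.length : ℤ) - i) (l1 ++ e1 :: l2)[i] := by
    intro i hi
    rcases lt_or_ge i l1.length with hlt | hge
    · have h5 := et_up_list (l1 ++ [e1]) (by simp) h1 (by
        rw [List.getLast_append_singleton]
        exact hbase) i (by simp; omega)
      have hk : (((l1 ++ [e1]).length : ℤ) - 1 - i) = (l1.length : ℤ) - i := by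
        rw [List.length_append]; simp
      rw [hk, List.getElem_append_left hlt] at h5
      rw [List.getElem_append_left hlt]
      exact h5
    · have hlen : i < l1.length + (e1 :: l2).length := by
        rw [List.length_append] at hi; exact hi
      have hj : i - l1.length < (e1 :: l2).length := by omega
      have h5 := et_down_list (e1 :: l2) 0 h2 (by
        intro y rest hl2
        rw [List.cons.injEq] at hl2
        rw [← hl2.1]
        exact hbase) (i - l1.length) hj
      have hk : ((0 : ℤ) - ((i - l1.length : ℕ) : ℤ)) = (l1.length : ℤ) - i := by omega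
      rw [hk] at h5
      rw [List.getElem_append_right hge]
      exact h5
  intro i hi
  have h5 := key i hi
  unfold etOK etE at h5
  rw [hR256, hl] at h5
  refine ⟨h5.1, h5.2.trans (le_of_eq ?_)⟩
  rw [add_div]
  norm_num

/-- every second entry -/
def evens : List ℕ → List ℕ
  | [] => []
  | [x] => [x]
  | x :: _ :: l => x :: evens l

theorem evens_spec : ∀ (n : ℕ) (l : List ℕ), l.length ≤ n → ∀ r (hr : r < (evens l).length),
    ∃ h : 2 * r < l.length, (evens l)[r] = l[2 * r] := by
  intro n
  induction n with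
  | zero =>
    intro l hl r hr
    have : l = [] := List.eq_nil_of_length_eq_zero (by omega)
    subst this
    simp [evens] at hr
  | succ n ih =>
    intro l hl r hr
    match l, hl, hr with
    | [], _, hr => simp [evens] at hr
    | [x], _, hr =>
      have hr0 : r = 0 := by simpa [evens] using hr
      subst hr0
      exact ⟨by simp, by simp [evens]⟩
    | x :: y :: l, hl, hr =>
      cases r with
      | zero => exact ⟨by simp, by simp [evens]⟩
      | succ r =>
        have hr' : r < (evens l).length := by simpa [evens] using hr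
        obtain ⟨h3, h4⟩ := ih l (by simp at hl; omega) r hr'
        refine ⟨by simp; omega, ?_⟩
        have e2 : 2 * (r + 1) = 2 * r + 2 := by ring
        simp only [evens, List.getElem_cons_succ, e2]
        exact h4

/-- `exp (-(q^i)) = exp (-(p^(2i)))` -/
theorem gok_of_eok {E : List ℕ} (h : EOK E) : GOK (evens (E.drop 3)) := by
  intro r hr
  obtain ⟨h2, h3⟩ := evens_spec _ (E.drop 3) le_rfl r hr
  rw [h3]
  have hlen : 3 + 2 * r < E.length := by
    rw [List.length_drop] at h2
    omega
  have h4 : (E.drop 3)[2 * r] = E[3 + 2 * r] := by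
    rw [List.getElem_drop]
  rw [h4]
  have h5 := h (3 + 2 * r) hlen
  have h6 : q ^ ((52 : ℤ) - r) = p ^ ((107 : ℤ) - ((3 + 2 * r : ℕ) : ℤ)) := by
    have hq : q = p ^ (2 : ℤ) := by unfold q p; norm_num
    rw [hq, ← zpow_mul]
    congr 1
    push_cast
    ring
  rw [h6]
  refine ⟨h5.1, h5.2.trans ?_⟩
  have : (1 : ℝ) / 2 ^ 236 ≤ 1 / 2 ^ 230 := by norm_num
  linarith

end H81.SG
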