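import Pool.Agent.H81.SG.Defs
import Pool.Agent.H25.SD.Fam
import Pool.Agent.H46.SB.FamFk

/-!
# Module FAM: the family `Fk n` satisfies `p F_k' = k F_k - F_(k+1)`

`Fk n k p = ∫ exp (-∑ e^v_i) (p c_v)^k exp (-(p c_v))`, `c_v = exp (-(∑ v_i)/2)`.  Positivity: the integrand is
positive and integrable (`Jn_integrable (dec_pow k)`).  Derivative: `hasDerivAt_integral_of_dominated_loc_of_deriv_le`
on a neighbourhood `(p/2, 2p)`, derivative of the integrand `(k (p c)^k - (p c)^(k+1)) exp (-(p c))/p`, dominated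
by `C c^(-1)`: `x^k e^(-x) ≤ (k+1)!/x`; `∫ exp (-∑ e^v_i) exp ((∑ v_i)/2)` converges (`prod_gamma` in
`Pool/Agent/H81/LP/Kbasic.lean`).
-/

namespace H81.SG

open MeasureTheory H46.SB

theorem fam (n : ℕ) : Pool.Agent.H25.SD.Fam (Fk n) :=
  ⟨fun k _ hp => Fk_pos n k hp, fun k _ hp => Fk_hasDerivAt n k hp⟩

end H81.SG
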