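import Pool.Agent.H81.SG.Sums

/-!
# Module INIT: the initial tables `T 0 k (p^j) = p^(jk) exp (-(p^j))` from the table of `exp (-(p^j))`

`initA k l j` multiplies the entries of `l` (belonging to `j, j - 1, …, 0`) by `(21/20)^(jk)`, `initB k l j`
multiplies the entries of `l` (belonging to `-j, -j - 1, …`) by `(20/21)^(jk)`; results rounded down.
`init0 k l1 l2`: the table for `j = 360, 359, …`: `253` zeros (`j = 360, …, 108`), then `l1` (`108` entries,
`j = 107, …, 0`), then `l2` (`j = -1, -2, …`).  Errors, times `p^j`, must be at most `2^(-100)`: for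
`0 ≤ j ≤ 107`: `(1 + 2^20 p^(jk)) p^j/2^256 ≤ 2 · 2^20 p^(16·107)/2^256`, `p^1712 ≤ 2^121`; for `j ≥ 108`, `m = p^j ≥ 194`:
`m^(k+1) e^(-m) ≤ 100! m^(16-100) ≤ 100!/194^84 ≤ 2^(-100)` (`k ≤ 15`); for `j < 0` trivial.
-/

namespace H81.SG

def initA (k : ℕ) : List ℕ → ℕ → List ℕ
  | [], _ => []
  | e :: l, j => (e * 21 ^ (j * k) / 20 ^ (j * k)) :: initA k l (j - 1)

def initB (k : ℕ) : List ℕ → ℕ → List ℕ
  | [], _ => []
  | e :: l, j => (e * 20 ^ (j * k) / 21 ^ (j * k)) :: initB k l (j + 1)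

def init0 (k : ℕ) (l1 l2 : List ℕ) : List ℕ :=
  List.replicate 253 0 ++ (initA k l1 107 ++ initB k l2 1)

theorem initA_length (k : ℕ) (l : List ℕ) : ∀ j, (initA k l j).length = l.length := by
  induction l with
  | nil => intro j; rfl
  | cons e l ih => intro j; simp [initA, ih]

theorem initB_length (k : ℕ) (l : List ℕ) : ∀ j, (initB k l j).length = l.length := by
  induction l with
  | nil => intro j; rfl
  | cons e l ih => intro j; simp [initB, ih]

theorem initA_get (k : ℕ) (l : List ℕ) : ∀ (j i : ℕ) (h : i < (initA k l j).length)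
    (h' : i < l.length),
    (initA k l j)[i] = l[i] * 21 ^ ((j - i) * k) / 20 ^ ((j - i) * k) := by
  induction l with
  | nil => intro j i h h'; exact absurd h' (by simp)
  | cons e l ih =>
    intro j i h h'
    rcases i with _ | i
    · simp [initA]
    · have h1 : i < (initA k l (j - 1)).length := by
        simpa [initA] using h
      have h2 : i < l.length := by simpa using h'
      have h3 := ih (j - 1) i h1 h2
      have e1 : j - 1 - i = j - (i + 1) := by omega
      rw [e1] at h3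
      simpa [initA] using h3

theorem initB_get (k : ℕ) (l : List ℕ) : ∀ (j i : ℕ) (h : i < (initB k l j).length)
    (h' : i < l.length),
    (initB k l j)[i] = l[i] * 20 ^ ((j + i) * k) / 21 ^ ((j + i) * k) := by
  induction l with
  | nil => intro j i h h'; exact absurd h' (by simp)
  | cons e l ih =>
    intro j i h h'
    rcases i with _ | i
    · simp [initB]
    · have h1 : i < (initB k l (j + 1)).length := by
        simpa [initB] using h
      have h2 : i < l.length := by simpa using h'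
      have h3 := ih (j + 1) i h1 h2
      have e1 : j + 1 + i = j + (i + 1) := by omega
      rw [e1] at h3
      simpa [initB] using h3

theorem rep_length (n : ℕ) (A B : List ℕ) :
    (List.replicate n 0 ++ (A ++ B)).length = n + (A.length + B.length) := by
  rw [List.length_append, List.length_append, List.length_replicate]

theorem rep_get_zero (n : ℕ) (A B : List ℕ) (i : ℕ) (h : i < n)
    (h' : i < (List.replicate n 0 ++ (A ++ B)).length) :
    (List.replicate n 0 ++ (A ++ B))[i]'h' = 0 := by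
  rw [List.getElem_append_left (by rw [List.length_replicate]; exact h), List.getElem_replicate]

theorem rep_get_left (n : ℕ) (A B : List ℕ) (i r : ℕ) (h : i = n + r) (h2 : r < A.length)
    (h' : i < (List.replicate n 0 ++ (A ++ B)).length) :
    (List.replicate n 0 ++ (A ++ B))[i]'h' = A[r]'h2 := by
  subst h
  rw [List.getElem_append_right (by rw [List.length_replicate]; omega)]
  simp only [List.length_replicate]
  rw [List.getElem_append_left (by omega)]
  congr 1
  omega

theorem rep_get_right (n : ℕ) (A B : List ℕ) (i r : ℕ) (h : i = n + (A.length + r))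
    (h2 : r < B.length)
    (h' : i < (List.replicate n 0 ++ (A ++ B)).length) :
    (List.replicate n 0 ++ (A ++ B))[i]'h' = B[r]'h2 := by
  subst h
  rw [List.getElem_append_right (by rw [List.length_replicate]; omega)]
  simp only [List.length_replicate]
  rw [List.getElem_append_right (by omega)]
  congr 1
  omega

theorem gen_get_zero (L : List ℕ) (n : ℕ) (A B : List ℕ) (hL : L = List.replicate n 0 ++ (A ++ B))
    (i : ℕ) (h : i < n) (hi : i < L.length) : L[i]'hi = 0 := by
  subst hL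
  exact rep_get_zero n A B i h hi

theorem gen_get_left (L : List ℕ) (n : ℕ) (A B : List ℕ) (hL : L = List.replicate n 0 ++ (A ++ B))
    (i r : ℕ) (h : i = n + r) (h2 : r < A.length) (hi : i < L.length) :
    L[i]'hi = A[r]'h2 := by
  subst hL
  exact rep_get_left n A B i r h h2 hi

theorem gen_get_right (L : List ℕ) (n : ℕ) (A B : List ℕ)
    (hL : L = List.replicate n 0 ++ (A ++ B))
    (i r : ℕ) (h : i = n + (A.length + r)) (h2 : r < B.length) (hi : i < L.length) :
    L[i]'hi = B[r]'h2 := by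
  subst hL
  exact rep_get_right n A B i r h h2 hi

theorem init0_length (k : ℕ) (l1 l2 : List ℕ) :
    (init0 k l1 l2).length = 253 + (l1.length + l2.length) := by
  unfold init0
  rw [rep_length, initA_length, initB_length]

theorem init_core {x : ℝ} (hx : 0 < x) {k e N D : ℕ} (hD : 0 < D) (hxk : x ^ k = (N : ℝ) / D)
    (h1 : (e : ℝ) / 2 ^ 256 ≤ Real.exp (-x))
    (h2 : Real.exp (-x) ≤ (e : ℝ) / 2 ^ 256 + 1 / 2 ^ 236)
    (hb : x / 2 ^ 256 + x ^ (k + 1) / 2 ^ 236 ≤ 1 / 2 ^ 100) :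
    ((e * N / D : ℕ) : ℝ) / 2 ^ 256 ≤ x ^ k * Real.exp (-x) ∧
    x ^ k * Real.exp (-x) ≤ ((e * N / D : ℕ) : ℝ) / 2 ^ 256 + (1 / 2 ^ 100) / x := by
  have hD' : (0 : ℝ) < D := by exact_mod_cast hD
  have hk : 0 < x ^ k := pow_pos hx k
  have a1 : ((e * N / D : ℕ) : ℝ) ≤ (e : ℝ) * x ^ k := by
    refine Nat.cast_div_le.trans ?_
    rw [hxk]
    push_cast
    rw [mul_div_assoc]
  have a2 : (e : ℝ) * x ^ k ≤ ((e * N / D : ℕ) : ℝ) + 1 := by
    have h3 : e * N < D * (e * N / D + 1) := Nat.lt_mul_div_succ _ hD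
    have h4 : (e : ℝ) * N ≤ D * (((e * N / D : ℕ) : ℝ) + 1) := by exact_mod_cast h3.le
    rw [hxk, ← mul_div_assoc, div_le_iff₀ hD']
    linarith
  constructor
  · calc ((e * N / D : ℕ) : ℝ) / 2 ^ 256 ≤ ((e : ℝ) * x ^ k) / 2 ^ 256 := by gcongr
      _ = x ^ k * ((e : ℝ) / 2 ^ 256) := by ring
      _ ≤ x ^ k * Real.exp (-x) := mul_le_mul_of_nonneg_left h1 hk.le
  · have h3 : x ^ k * Real.exp (-x) ≤ x ^ k * ((e : ℝ) / 2 ^ 256 + 1 / 2 ^ 236) :=
      mul_le_mul_of_nonneg_left h2 hk.le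
    have h4 : x ^ k * ((e : ℝ) / 2 ^ 256 + 1 / 2 ^ 236) =
        ((e : ℝ) * x ^ k) / 2 ^ 256 + x ^ k / 2 ^ 236 := by ring
    have h5 : ((e : ℝ) * x ^ k) / 2 ^ 256 ≤ (((e * N / D : ℕ) : ℝ) + 1) / 2 ^ 256 := by gcongr
    have h6 : 1 / 2 ^ 256 + x ^ k / 2 ^ 236 ≤ (1 / 2 ^ 100) / x := by
      rw [le_div_iff₀ hx]
      calc (1 / 2 ^ 256 + x ^ k / 2 ^ 236) * x = x / 2 ^ 256 + x ^ (k + 1) / 2 ^ 236 := by
            rw [pow_succ]; ring
        _ ≤ 1 / 2 ^ 100 := hb
    have h7 : (((e * N / D : ℕ) : ℝ) + 1) / 2 ^ 256 =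
        ((e * N / D : ℕ) : ℝ) / 2 ^ 256 + 1 / 2 ^ 256 := by ring
    linarith

/-- the table is zero for large arguments -/
theorem init_big {k : ℕ} (hk : k ≤ 15) {x : ℝ} (hx : 194 ≤ x) :
    x ^ k * Real.exp (-x) ≤ (1 / 2 ^ 100) / x := by
  have hx0 : 0 < x := by linarith
  have h1 : x ^ 100 / ((Nat.factorial 100 : ℕ) : ℝ) ≤ Real.exp x :=
    Real.pow_div_factorial_le_exp x hx0.le 100
  have hf : (0 : ℝ) < ((Nat.factorial 100 : ℕ) : ℝ) := by exact_mod_cast Nat.factorial_pos 100
  rw [le_div_iff₀ hx0, Real.exp_neg]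
  have h2 : x ^ k * (Real.exp x)⁻¹ * x = x ^ (k + 1) * (Real.exp x)⁻¹ := by ring
  rw [h2, ← div_eq_mul_inv, div_le_iff₀ (Real.exp_pos x)]
  have h3 : x ^ (k + 1) * x ^ (99 - k) = x ^ 100 := by
    rw [← pow_add]
    congr 1
    omega
  have h4 : (194 : ℝ) ^ 84 ≤ x ^ (99 - k) := by
    calc (194 : ℝ) ^ 84 ≤ 194 ^ (99 - k) := pow_le_pow_right₀ (by norm_num) (by omega)
      _ ≤ x ^ (99 - k) := pow_le_pow_left₀ (by norm_num) hx _
  have h5 : ((Nat.factorial 100 : ℕ) : ℝ) * 2 ^ 100 ≤ 194 ^ 84 := by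
    have : Nat.factorial 100 * 2 ^ 100 ≤ 194 ^ 84 := by decide +kernel
    exact_mod_cast this
  have h6 : x ^ (k + 1) * (((Nat.factorial 100 : ℕ) : ℝ) * 2 ^ 100) ≤ x ^ 100 := by
    rw [← h3]
    exact mul_le_mul_of_nonneg_left (h5.trans h4) (pow_nonneg hx0.le _)
  rw [div_le_iff₀ hf] at h1
  have h7 : x ^ (k + 1) * 2 ^ 100 * ((Nat.factorial 100 : ℕ) : ℝ) ≤
      Real.exp x * ((Nat.factorial 100 : ℕ) : ℝ) := by linarith
  have h8 := le_of_mul_le_mul_right h7 hf
  rw [one_div, inv_mul_eq_div, le_div_iff₀ (by positivity)]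
  exact h8

theorem init_ok_aux {k : ℕ} (hk : k ≤ 15) {l1 l2 : List ℕ} (hl : l1.length = 108)
    (h : EOK (l1 ++ l2)) (L : List ℕ) (n : ℕ) (hn : n = 253)
    (hL : L = List.replicate n 0 ++ (initA k l1 107 ++ initB k l2 1)) :
    TOK k 0 360 (1 / 2 ^ 100) L := by
  intro i hi
  have hlen := hi
  rw [hL, rep_length, initA_length, initB_length, hl, hn] at hlen
  have hT : ∀ m : ℝ, T 0 k m = m ^ k * Real.exp (-m) := fun m => rfl
  rw [hT]
  rcases Nat.lt_or_ge i n with h1 | h1
  · -- zeros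
    have e1 : L[i]'hi = 0 := gen_get_zero L n _ _ hL i h1 hi
    have e2 : (p : ℝ) ^ (((360 : ℕ) : ℤ) - i) = p ^ (360 - i) := by
      rw [← zpow_natCast]
      congr 1
      omega
    have e3 : (194 : ℝ) ≤ p ^ (360 - i) := by
      calc (194 : ℝ) ≤ p ^ 108 := by
            unfold p
            norm_num
        _ ≤ p ^ (360 - i) := pow_le_pow_right₀ (by unfold p; norm_num) (by omega)
    have h3 := init_big hk e3
    have h4 : 0 < p ^ (360 - i) := by linarith
    rw [e1, e2, Nat.cast_zero, zero_div, zero_add]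
    exact ⟨by positivity, h3⟩
  · have hp1 : (1 : ℝ) ≤ p := by unfold p; norm_num
    obtain ⟨r, hr⟩ : ∃ r, i = n + r := ⟨i - n, by omega⟩
    have h6 : r < (l1 ++ l2).length := by
      rw [List.length_append]
      omega
    have h7 := h r h6
    rcases Nat.lt_or_ge r l1.length with h3 | h3
    · -- `j = 107 - r ≥ 0`
      have h4 : r < (initA k l1 107).length := by rw [initA_length]; exact h3
      have e1 : L[i]'hi = l1[r]'h3 * 21 ^ ((107 - r) * k) / 20 ^ ((107 - r) * k) := by
        rw [← initA_get k l1 107 r h4 h3]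
        exact gen_get_left L n (initA k l1 107) (initB k l2 1) hL i r hr h4 hi
      have e2 : (p : ℝ) ^ (((360 : ℕ) : ℤ) - i) = p ^ (107 - r) := by
        rw [← zpow_natCast]
        congr 1
        omega
      have e4 : (l1 ++ l2)[r]'h6 = l1[r]'h3 := List.getElem_append_left h3
      have e5 : (p : ℝ) ^ ((107 : ℤ) - (r : ℤ)) = p ^ (107 - r) := by
        rw [← zpow_natCast]
        congr 1
        omega
      rw [e4, e5] at h7
      rw [e1, e2]
      have hx0 : 0 < p ^ (107 - r) := pow_pos (by linarith) _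
      refine init_core hx0 (by positivity) ?_ h7.1 h7.2 ?_
      · rw [← pow_mul]
        unfold p
        rw [div_pow]
        push_cast
        rfl
      · have hbig : (p : ℝ) ^ 1712 ≤ 2 ^ 121 := by
          unfold p
          rw [div_pow, div_le_iff₀ (by positivity)]
          have : (21 : ℕ) ^ 1712 ≤ 2 ^ 121 * 20 ^ 1712 := by decide +kernel
          exact_mod_cast this
        have h8 : (p ^ (107 - r)) ^ (k + 1) ≤ 2 ^ 121 := by
          rw [← pow_mul]
          refine (pow_le_pow_right₀ hp1 ?_).trans hbig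
          have h9 : (107 - r) * (k + 1) ≤ 107 * 16 := Nat.mul_le_mul (by omega) (by omega)
          omega
        have h9 : p ^ (107 - r) ≤ 2 ^ 121 :=
          (pow_le_pow_right₀ hp1 (by omega)).trans hbig
        calc p ^ (107 - r) / 2 ^ 256 + (p ^ (107 - r)) ^ (k + 1) / 2 ^ 236
            ≤ 2 ^ 121 / 2 ^ 256 + 2 ^ 121 / 2 ^ 236 := by gcongr
          _ ≤ 1 / 2 ^ 100 := by norm_num
    · -- `j = - (1 + r')`
      obtain ⟨r', hr'⟩ : ∃ r', r = l1.length + r' := ⟨r - l1.length, by omega⟩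
      have h2 : r' < l2.length := by
        rw [List.length_append] at h6
        omega
      have h4 : r' < (initB k l2 1).length := by rw [initB_length]; exact h2
      have e1 : L[i]'hi = l2[r']'h2 * 20 ^ ((1 + r') * k) / 21 ^ ((1 + r') * k) := by
        rw [← initB_get k l2 1 r' h4 h2]
        exact gen_get_right L n (initA k l1 107) (initB k l2 1) hL i r'
          (by rw [initA_length]; omega) h4 hi
      have e2 : (p : ℝ) ^ (((360 : ℕ) : ℤ) - i) = (p ^ (1 + r'))⁻¹ := by
        rw [← zpow_natCast, ← zpow_neg]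
        congr 1
        omega
      have e4 : (l1 ++ l2)[r]'h6 = l2[r']'h2 := by
        subst hr'
        rw [List.getElem_append_right (by omega)]
        congr 1
        omega
      have e5 : (p : ℝ) ^ ((107 : ℤ) - (r : ℤ)) = (p ^ (1 + r'))⁻¹ := by
        rw [← zpow_natCast, ← zpow_neg]
        congr 1
        omega
      rw [e4, e5] at h7
      rw [e1, e2]
      have hx1 : 1 ≤ p ^ (1 + r') := one_le_pow₀ hp1
      have hx0 : 0 < (p ^ (1 + r'))⁻¹ := by positivity
      have hx2 : (p ^ (1 + r'))⁻¹ ≤ 1 := inv_le_one_of_one_le₀ hx1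
      refine init_core hx0 (by positivity) ?_ h7.1 h7.2 ?_
      · rw [inv_pow, ← pow_mul]
        unfold p
        rw [div_pow, inv_div]
        push_cast
        rfl
      · have h8 : ((p ^ (1 + r'))⁻¹) ^ (k + 1) ≤ 1 := pow_le_one₀ hx0.le hx2
        calc (p ^ (1 + r'))⁻¹ / 2 ^ 256 + ((p ^ (1 + r'))⁻¹) ^ (k + 1) / 2 ^ 236
            ≤ 1 / 2 ^ 256 + 1 / 2 ^ 236 := by gcongr
          _ ≤ 1 / 2 ^ 100 := by norm_num

theorem init_ok {k : ℕ} (hk : k ≤ 15) {l1 l2 : List ℕ} (hl : l1.length = 108) (h : EOK (l1 ++ l2)) :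
    TOK k 0 360 (1 / 2 ^ 100) (init0 k l1 l2) :=
  init_ok_aux hk hl h (init0 k l1 l2) 253 rfl rfl

end H81.SG
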