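import Pool.Agent.H81.SG.Sums

/-!
# Module STEP: one step of the tables (discrete convolution)

Adapt the second part of `Pool/Agent/H81/L2/Tab.lean` (complete proof there for another grid).
With `m = p^(360 - s)`, `T (n+1) k m = ∑_i exp (-q^i) T n k (p^(360 - s - i))`:
* main part `-s ≤ i ≤ 52`: `∑_{r ≤ s + 52} g_r t_(s+52-r)/2^512` from below, `= cf g t (s+52)/2^512`
  (`L2.cf`, file `Pool/Agent/H81/L2/Kron.lean`; `r = 52 - i`; all indices exist); from above one has to add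
  `41 ε/m` (`thetaOne`) and `2^(-230) (k+1)! 41^n/m ∑_{i ≤ 52} p^i` (`T_le_one`), `∑_{i ≤ 52} p^i = 21 · (21/20)^52 ≤ 266`;
* `i ≥ 53`: `T_le_one` and `exp (-x) ≤ 100!/x^100` with `x = q^i ≥ q^53 ≥ 176` (`(400/441)^53 ≤ 1/176`):
  at most `2^(-200) (k+1)! 41^n/m` (`100!/176^99 ≤ 2^(-212)`, geometric);
* `i < -s`: arguments `p^(360 + j)`, `j ≥ 1`, `T_le_ten`: at most `2 (k+10)! 7800^n p^(-3600)`
  `≤ 2 (k+10)! 7800^n p^(-3240)/m` (`m ≤ p^360`);
* rounding `2^(-256) ≤ 2^(-256) p^360/m`.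
For `k ≤ 15`, `n ≤ 3` the sum of the extra terms is at most `2^(-100)/m` (it is about `2^(-104.8)/m`:
`25! ≤ 2^84`, `7800^3 ≤ 2^39`, `(20/21)^3240 ≤ 2^(-228)`; write powers of `20/21` via
`(20/21)^81 ≤ 0.01923` and `0.01923^40 ≤ 2^(-228)`, do not evaluate them directly).
-/

namespace H81.SG

theorem stepL_length (g t : List ℕ) : (stepL g t).length = t.length - 52 := by
  simp [stepL]

private theorem st_q_pos : (0 : ℝ) < q := by
  unfold q
  norm_num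

private theorem st_p_pos : (0 : ℝ) < p := by
  unfold p
  norm_num

private theorem st_p_neg (k : ℤ) : p ^ (-k) = (20 / 21 : ℝ) ^ k := by
  have h1 : p⁻¹ = (20 / 21 : ℝ) := by
    unfold p
    norm_num
  rw [zpow_neg, ← inv_zpow, h1]

private theorem st_q_nat (k : ℕ) : q ^ (k : ℤ) = (((20 / 21 : ℝ) ^ k) ^ 2)⁻¹ := by
  have h1 : q = ((20 / 21 : ℝ) ^ 2)⁻¹ := by
    unfold q
    norm_num
  rw [zpow_natCast, h1, inv_pow, ← pow_mul, ← pow_mul, mul_comm]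

private theorem st_p81 : (20 / 21 : ℝ) ^ 81 ≤ 1923 / 10 ^ 5 := by norm_num

private theorem st_fact : (Nat.factorial 100 : ℝ) * (1923 / 10 ^ 5) ^ 130 * 2 ≤ 1 / 2 ^ 200 := by
  norm_num [Nat.factorial]

/-- one term of the right tail -/
private theorem st_termB (n k : ℕ) {X : ℝ} (hX : 0 < X) (m : ℕ) :
    Real.exp (-(q ^ ((m : ℤ) + 53))) * T n k (X * p ^ (-((m : ℤ) + 53))) ≤
      ((Nat.factorial 100 : ℝ) * (1923 / 10 ^ 5) ^ 130 * (((k + 1).factorial : ℝ) * 41 ^ n / X)) *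
        (1 / 2) ^ m := by
  have hk : ((m : ℤ) + 53) = ((m + 53 : ℕ) : ℤ) := by push_cast; ring
  have hq := st_q_pos
  have hp := st_p_pos
  have h1 := T_le_one n k (m := X * p ^ (-((m : ℤ) + 53))) (by positivity)
  rw [st_p_neg] at h1 ⊢
  rw [hk] at h1 ⊢
  rw [zpow_natCast (20 / 21 : ℝ)] at h1 ⊢
  obtain ⟨a, ha⟩ : ∃ a : ℝ, a = (20 / 21 : ℝ) ^ (m + 53) := ⟨_, rfl⟩
  have ha0 : 0 < a := by rw [ha]; positivity
  have h2 : Real.exp (-(q ^ ((m + 53 : ℕ) : ℤ))) ≤ (Nat.factorial 100 : ℝ) * a ^ 200 := by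
    rw [st_q_nat, ← ha]
    have h3 := Real.pow_div_factorial_le_exp ((a ^ 2)⁻¹) (by positivity) 100
    have hf : (0 : ℝ) < (Nat.factorial 100 : ℝ) := by positivity
    rw [Real.exp_neg, inv_le_comm₀ (Real.exp_pos _) (by positivity)]
    refine le_trans (le_of_eq ?_) h3
    rw [mul_inv, inv_pow, ← pow_mul, div_eq_mul_inv]
    ring
  rw [← ha] at h1 ⊢
  have h5 : 0 ≤ T n k (X * a) := T_nonneg n k (by positivity)
  obtain ⟨F, hF⟩ : ∃ F : ℝ, F = (Nat.factorial 100 : ℝ) := ⟨_, rfl⟩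
  obtain ⟨C, hC⟩ : ∃ C : ℝ, C = ((k + 1).factorial : ℝ) * 41 ^ n := ⟨_, rfl⟩
  rw [← hF] at h2 ⊢
  rw [← hC] at h1 ⊢
  have hF0 : 0 < F := by rw [hF]; positivity
  have hC0 : 0 < C := by rw [hC]; positivity
  have e : a ^ 199 ≤ (1923 / 10 ^ 5) ^ 130 * (1 / 2) ^ m := by
    have e1 : a ^ 199 = ((20 / 21 : ℝ) ^ 81) ^ 130 * (20 / 21 : ℝ) ^ (17 + 199 * m) := by
      rw [ha, ← pow_mul, ← pow_mul, ← pow_add]
      congr 1
      ring
    have e2 : (20 / 21 : ℝ) ^ (17 + 199 * m) ≤ (1 / 2) ^ m := by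
      calc (20 / 21 : ℝ) ^ (17 + 199 * m) ≤ (20 / 21 : ℝ) ^ (15 * m) :=
            pow_le_pow_of_le_one (by norm_num) (by norm_num) (by omega)
        _ = ((20 / 21 : ℝ) ^ 15) ^ m := by rw [pow_mul]
        _ ≤ (1 / 2) ^ m := pow_le_pow_left₀ (by positivity) (by norm_num) m
    rw [e1]
    exact mul_le_mul (pow_le_pow_left₀ (by positivity) st_p81 130) e2 (by positivity)
      (by positivity)
  calc Real.exp (-(q ^ ((m + 53 : ℕ) : ℤ))) * T n k (X * a)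
      ≤ (F * a ^ 200) * (C / (X * a)) := mul_le_mul h2 h1 h5 (by positivity)
    _ = F * (C / X) * a ^ 199 := by
        field_simp
    _ ≤ F * (C / X) * ((1923 / 10 ^ 5) ^ 130 * (1 / 2) ^ m) :=
        mul_le_mul_of_nonneg_left e (by positivity)
    _ = (F * (1923 / 10 ^ 5) ^ 130 * (C / X)) * (1 / 2) ^ m := by ring

private theorem st_tailB (n k : ℕ) {X : ℝ} (hX : 0 < X) :
    ∑' m : ℕ, Real.exp (-(q ^ ((m : ℤ) + 53))) * T n k (X * p ^ (-((m : ℤ) + 53))) ≤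
      1 / 2 ^ 200 * (((k + 1).factorial : ℝ) * 41 ^ n / X) := by
  have hq := st_q_pos
  have hp := st_p_pos
  have hgeo := (hasSum_geometric_of_lt_one (r := (1 / 2 : ℝ)) (by norm_num) (by norm_num)).mul_left
    ((Nat.factorial 100 : ℝ) * (1923 / 10 ^ 5) ^ 130 * (((k + 1).factorial : ℝ) * 41 ^ n / X))
  have h1 : Summable fun m : ℕ =>
      Real.exp (-(q ^ ((m : ℤ) + 53))) * T n k (X * p ^ (-((m : ℤ) + 53))) :=
    Summable.of_nonneg_of_le
      (fun m => mul_nonneg (Real.exp_pos _).le (T_nonneg n k (by positivity)))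
      (fun m => st_termB n k hX m) hgeo.summable
  have h2 := h1.tsum_le_tsum (fun m => st_termB n k hX m) hgeo.summable
  rw [hgeo.tsum_eq] at h2
  refine h2.trans ?_
  have h3 := st_fact
  have h4 : 0 ≤ ((k + 1).factorial : ℝ) * 41 ^ n / X := by positivity
  have h6 : (1 - (1 / 2 : ℝ))⁻¹ = 2 := by norm_num
  rw [h6]
  calc _ = ((Nat.factorial 100 : ℝ) * (1923 / 10 ^ 5) ^ 130 * 2) *
        (((k + 1).factorial : ℝ) * 41 ^ n / X) := by ring
    _ ≤ 1 / 2 ^ 200 * (((k + 1).factorial : ℝ) * 41 ^ n / X) :=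
        mul_le_mul_of_nonneg_right h3 h4

/-- one term of the left tail -/
private theorem st_termC (n k i : ℕ) (m : ℕ) :
    Real.exp (-(q ^ (-((m + i : ℕ) : ℤ) - 1))) *
        T n k (p ^ ((360 : ℤ) - i) * p ^ (-(-((m + i : ℕ) : ℤ) - 1))) ≤
      (((k + 10).factorial : ℝ) * 7800 ^ n * (20 / 21 : ℝ) ^ 3610) * ((20 / 21 : ℝ) ^ 10) ^ m := by
  have hq := st_q_pos
  have hp := st_p_pos
  have h0 : p ^ ((360 : ℤ) - i) * p ^ (-(-((m + i : ℕ) : ℤ) - 1)) = p ^ (361 + m) := by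
    rw [← zpow_add₀ hp.ne', ← zpow_natCast]
    congr 1
    push_cast
    ring
  rw [h0]
  have h1 := T_le_ten n k (m := p ^ (361 + m)) (by positivity)
  have h2 : Real.exp (-(q ^ (-((m + i : ℕ) : ℤ) - 1))) ≤ 1 := by
    rw [Real.exp_le_one_iff]
    have : 0 < q ^ (-((m + i : ℕ) : ℤ) - 1) := by positivity
    linarith
  have h3 : 0 ≤ T n k (p ^ (361 + m)) := T_nonneg n k (by positivity)
  calc Real.exp (-(q ^ (-((m + i : ℕ) : ℤ) - 1))) * T n k (p ^ (361 + m))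
      ≤ 1 * T n k (p ^ (361 + m)) := mul_le_mul_of_nonneg_right h2 h3
    _ ≤ ((k + 10).factorial : ℝ) * 7800 ^ n / (p ^ (361 + m)) ^ 10 := by
        rw [one_mul]
        exact h1
    _ = (((k + 10).factorial : ℝ) * 7800 ^ n * (20 / 21 : ℝ) ^ 3610) * ((20 / 21 : ℝ) ^ 10) ^ m := by
        have e : ((p ^ (361 + m)) ^ 10)⁻¹ =
            (20 / 21 : ℝ) ^ 3610 * ((20 / 21 : ℝ) ^ 10) ^ m := by
          have e1 : (p : ℝ)⁻¹ = 20 / 21 := by
            unfold p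
            norm_num
          rw [← inv_pow, ← inv_pow, e1, ← pow_mul, ← pow_mul, ← pow_add]
          congr 1
          ring
        rw [div_eq_mul_inv, e]
        ring

private theorem st_tailC (n k i : ℕ) :
    ∑' m : ℕ, Real.exp (-(q ^ (-((m + i : ℕ) : ℤ) - 1))) *
        T n k (p ^ ((360 : ℤ) - i) * p ^ (-(-((m + i : ℕ) : ℤ) - 1))) ≤
      2 * (((k + 10).factorial : ℝ) * 7800 ^ n) * (20 / 21 : ℝ) ^ 3600 := by
  have hq := st_q_pos
  have hp := st_p_pos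
  have hr0 : (0 : ℝ) ≤ (20 / 21 : ℝ) ^ 10 := by positivity
  have hr1 : (20 / 21 : ℝ) ^ 10 < 1 := by norm_num
  have hgeo := (hasSum_geometric_of_lt_one hr0 hr1).mul_left
    (((k + 10).factorial : ℝ) * 7800 ^ n * (20 / 21 : ℝ) ^ 3610)
  have h1 : Summable fun m : ℕ => Real.exp (-(q ^ (-((m + i : ℕ) : ℤ) - 1))) *
        T n k (p ^ ((360 : ℤ) - i) * p ^ (-(-((m + i : ℕ) : ℤ) - 1))) :=
    Summable.of_nonneg_of_le
      (fun m => mul_nonneg (Real.exp_pos _).le (T_nonneg n k (by positivity)))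
      (fun m => st_termC n k i m) hgeo.summable
  have h2 := h1.tsum_le_tsum (fun m => st_termC n k i m) hgeo.summable
  rw [hgeo.tsum_eq] at h2
  refine h2.trans ?_
  have h3 : (20 / 21 : ℝ) ^ 10 * (1 - (20 / 21 : ℝ) ^ 10)⁻¹ ≤ 2 := by norm_num
  have h4 : (20 / 21 : ℝ) ^ 3610 = (20 / 21 : ℝ) ^ 3600 * (20 / 21 : ℝ) ^ 10 := by
    rw [← pow_add]
  rw [h4]
  obtain ⟨a, ha⟩ : ∃ a : ℝ, a = (20 / 21 : ℝ) ^ 3600 := ⟨_, rfl⟩
  have ha0 : 0 ≤ a := by rw [ha]; positivity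
  rw [← ha]
  obtain ⟨c, hc⟩ : ∃ c : ℝ, c = (20 / 21 : ℝ) ^ 10 := ⟨_, rfl⟩
  rw [← hc] at h3 ⊢
  obtain ⟨C, hC⟩ : ∃ C : ℝ, C = ((k + 10).factorial : ℝ) * 7800 ^ n := ⟨_, rfl⟩
  have hC0 : 0 ≤ C := by rw [hC]; positivity
  rw [← hC]
  calc C * (a * c) * (1 - c)⁻¹ = (C * a) * (c * (1 - c)⁻¹) := by ring
    _ ≤ (C * a) * 2 := mul_le_mul_of_nonneg_left h3 (by positivity)
    _ = 2 * C * a := by ring

/-- splitting of a sum over the integers -/
private theorem st_split {u : ℤ → ℝ} (hu : Summable u) (i : ℕ) :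
    ∑' k, u k = ∑ r ∈ Finset.range (i + 53), u (52 - (r : ℤ)) + ∑' m : ℕ, u ((m : ℤ) + 53) +
      ∑' m : ℕ, u (-((m + i : ℕ) : ℤ) - 1) := by
  have h1 : Summable fun m : ℕ => u (m : ℤ) :=
    hu.comp_injective (i := fun m : ℕ => (m : ℤ)) Nat.cast_injective
  have h2 : Summable fun m : ℕ => u (-((m : ℤ) + 1)) :=
    hu.comp_injective (i := fun m : ℕ => -((m : ℤ) + 1)) (fun a b h => by
      simp only [neg_inj, add_left_inj, Nat.cast_inj] at h
      exact h)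
  rw [tsum_of_nat_of_neg_add_one h1 h2, ← h1.sum_add_tsum_nat_add 53, ← h2.sum_add_tsum_nat_add i]
  have e1 : ∑ r ∈ Finset.range (i + 53), u (52 - (r : ℤ)) =
      ∑ m ∈ Finset.range 53, u (m : ℤ) + ∑ m ∈ Finset.range i, u (-((m : ℤ) + 1)) := by
    rw [add_comm i 53, Finset.sum_range_add, ← Finset.sum_range_reflect]
    congr 1
    · refine Finset.sum_congr rfl fun r hr => ?_
      rw [Finset.mem_range] at hr
      congr 1
      omega
  rw [e1]
  have e2 : ∀ m : ℕ, u (((m + 53 : ℕ) : ℤ)) = u ((m : ℤ) + 53) := fun m => by push_cast; rfl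
  have e3 : ∀ m : ℕ, u (-(((m + i : ℕ) : ℤ) + 1)) = u (-((m + i : ℕ) : ℤ) - 1) := fun m => by
    congr 1
    ring
  simp only [e2, e3]
  ring

private theorem st_sum_le {u : ℤ → ℝ} (hu : Summable u) (h0 : ∀ k, 0 ≤ u k) (i : ℕ) :
    ∑ r ∈ Finset.range (i + 53), u (52 - (r : ℤ)) ≤ ∑' k, u k := by
  rw [st_split hu i]
  have h1 : 0 ≤ ∑' m : ℕ, u ((m : ℤ) + 53) := tsum_nonneg fun m => h0 _
  have h2 : 0 ≤ ∑' m : ℕ, u (-((m + i : ℕ) : ℤ) - 1) := tsum_nonneg fun m => h0 _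
  linarith

private theorem st_geo (N : ℕ) : ∑ r ∈ Finset.range N, p ^ (52 - (r : ℤ)) ≤ 266 := by
  have h1 : ∀ r : ℕ, p ^ (52 - (r : ℤ)) = (21 / 20 : ℝ) ^ 52 * (20 / 21 : ℝ) ^ r := by
    intro r
    unfold p
    rw [zpow_sub₀ (by norm_num), zpow_natCast, div_eq_mul_inv, ← inv_pow]
    congr 1
    norm_num
  simp only [h1]
  rw [← Finset.mul_sum]
  have h2 : ∑ r ∈ Finset.range N, (20 / 21 : ℝ) ^ r ≤ 21 := by
    have h3 := geom_sum_eq (by norm_num : (20 / 21 : ℝ) ≠ 1) N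
    rw [h3]
    have h4 : 0 ≤ (20 / 21 : ℝ) ^ N := by positivity
    rw [div_le_iff_of_neg (by norm_num)]
    linarith
  have h5 : (21 / 20 : ℝ) ^ 52 * ∑ r ∈ Finset.range N, (20 / 21 : ℝ) ^ r ≤ (21 / 20 : ℝ) ^ 52 * 21 :=
    mul_le_mul_of_nonneg_left h2 (by positivity)
  refine h5.trans ?_
  norm_num

/-- the numerical estimate of the extra terms -/
private theorem st_num {k n : ℕ} (hk : k ≤ 15) (hn : n ≤ 3) {X : ℝ} (hX : 0 < X)
    (hX2 : X ≤ p ^ (360 : ℤ)) :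
    266 * (1 / 2 ^ 230 * (((k + 1).factorial : ℝ) * 41 ^ n / X)) +
      1 / 2 ^ 200 * (((k + 1).factorial : ℝ) * 41 ^ n / X) +
      2 * (((k + 10).factorial : ℝ) * 7800 ^ n) * (20 / 21 : ℝ) ^ 3600 + 1 / 2 ^ 256 ≤
      1 / 2 ^ 100 / X := by
  obtain ⟨C, hC⟩ : ∃ C : ℝ, C = ((k + 1).factorial : ℝ) * 41 ^ n := ⟨_, rfl⟩
  obtain ⟨D, hD⟩ : ∃ D : ℝ, D = ((k + 10).factorial : ℝ) * 7800 ^ n := ⟨_, rfl⟩
  rw [← hC, ← hD]
  have hC0 : 0 ≤ C := by rw [hC]; positivity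
  have hD0 : 0 ≤ D := by rw [hD]; positivity
  have hC1 : C ≤ 2 ^ 61 := by
    have h1 : ((k + 1).factorial : ℝ) ≤ ((16 : ℕ).factorial : ℝ) := by
      exact_mod_cast Nat.factorial_le (by omega)
    have h2 : (41 : ℝ) ^ n ≤ 41 ^ 3 := pow_le_pow_right₀ (by norm_num) hn
    rw [hC]
    refine (mul_le_mul h1 h2 (by positivity) (by positivity)).trans ?_
    norm_num [Nat.factorial]
  have hD1 : D ≤ 2 ^ 123 := by
    have h1 : ((k + 10).factorial : ℝ) ≤ ((25 : ℕ).factorial : ℝ) := by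
      exact_mod_cast Nat.factorial_le (by omega)
    have h2 : (7800 : ℝ) ^ n ≤ 7800 ^ 3 := pow_le_pow_right₀ (by norm_num) hn
    rw [hD]
    refine (mul_le_mul h1 h2 (by positivity) (by positivity)).trans ?_
    norm_num [Nat.factorial]
  rw [le_div_iff₀ hX]
  have hP0 : (0 : ℝ) < p ^ (360 : ℤ) := by
    have := st_p_pos
    positivity
  have hPa : p ^ (360 : ℤ) * (20 / 21 : ℝ) ^ 360 = 1 := by
    have e : p = 21 / 20 := rfl
    rw [e, show ((360 : ℤ)) = ((360 : ℕ) : ℤ) by norm_num, zpow_natCast, ← mul_pow]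
    norm_num
  have hXa : X * (20 / 21 : ℝ) ^ 3600 ≤ 1 / 2 ^ 228 := by
    have h1 : (20 / 21 : ℝ) ^ 3600 = (20 / 21 : ℝ) ^ 360 * ((20 / 21 : ℝ) ^ 81) ^ 40 := by
      rw [← pow_mul, ← pow_add]
    have h2 : X * (20 / 21 : ℝ) ^ 360 ≤ 1 := by
      rw [← hPa]
      exact mul_le_mul_of_nonneg_right hX2 (by positivity)
    have h3 : ((20 / 21 : ℝ) ^ 81) ^ 40 ≤ (1923 / 10 ^ 5) ^ 40 :=
      pow_le_pow_left₀ (by positivity) st_p81 40
    rw [h1, ← mul_assoc]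
    refine (mul_le_mul h2 h3 (by positivity) (by norm_num)).trans ?_
    norm_num
  have hXb : X ≤ 2 ^ 28 := by
    have h1 : p ^ (360 : ℤ) = ((21 / 20 : ℝ) ^ 36) ^ 10 := by
      have e : p = 21 / 20 := rfl
      rw [e, show ((360 : ℤ)) = ((360 : ℕ) : ℤ) by norm_num, zpow_natCast, ← pow_mul]
    have h2 : ((21 / 20 : ℝ) ^ 36) ^ 10 ≤ (6 : ℝ) ^ 10 :=
      pow_le_pow_left₀ (by positivity) (by norm_num) 10
    refine hX2.trans ?_
    rw [h1]
    refine h2.trans ?_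
    norm_num
  have hCX : C / X * X = C := by field_simp
  obtain ⟨a, ha⟩ : ∃ a : ℝ, a = (20 / 21 : ℝ) ^ 3600 := ⟨_, rfl⟩
  have ha0 : 0 ≤ a := by rw [ha]; positivity
  rw [← ha] at hXa ⊢
  clear ha hC hD
  have e : (266 * (1 / 2 ^ 230 * (C / X)) + 1 / 2 ^ 200 * (C / X) + 2 * D * a +
      1 / 2 ^ 256) * X = 266 * (1 / 2 ^ 230 * C) + 1 / 2 ^ 200 * C +
        2 * (D * (X * a)) + 1 / 2 ^ 256 * X := by
    calc _ = 266 * (1 / 2 ^ 230 * (C / X * X)) + 1 / 2 ^ 200 * (C / X * X) +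
        2 * (D * (X * a)) + 1 / 2 ^ 256 * X := by ring
      _ = _ := by rw [hCX]
  rw [e]
  have h5 : D * (X * a) ≤ 2 ^ 123 * (1 / 2 ^ 228) :=
    mul_le_mul hD1 hXa (by positivity) (by norm_num)
  have h6 : (266 * (1 / 2 ^ 230 * C) : ℝ) ≤ 266 * (1 / 2 ^ 230 * 2 ^ 61) := by
    apply mul_le_mul_of_nonneg_left _ (by norm_num)
    exact mul_le_mul_of_nonneg_left hC1 (by positivity)
  have h7 : (1 / 2 ^ 200 * C : ℝ) ≤ 1 / 2 ^ 200 * 2 ^ 61 :=
    mul_le_mul_of_nonneg_left hC1 (by positivity)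
  have h8 : (1 / 2 ^ 256 * X : ℝ) ≤ 1 / 2 ^ 256 * 2 ^ 28 :=
    mul_le_mul_of_nonneg_left hXb (by positivity)
  have h9 : (266 * (1 / 2 ^ 230 * 2 ^ 61) + 1 / 2 ^ 200 * 2 ^ 61 + 2 * (2 ^ 123 * (1 / 2 ^ 228)) +
      1 / 2 ^ 256 * 2 ^ 28 : ℝ) ≤ 1 / 2 ^ 100 := by norm_num
  refine le_trans ?_ h9
  exact add_le_add (add_le_add (add_le_add h6 h7) (mul_le_mul_of_nonneg_left h5 (by norm_num))) h8

private theorem st_real {n k : ℕ} {ε : ℝ} (hε : 0 ≤ ε) (hk : k ≤ 15) (hn : n ≤ 3)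
    (i : ℕ) (G U : ℕ → ℕ)
    (hG : ∀ r < i + 53, (G r : ℝ) / 2 ^ 256 ≤ Real.exp (-(q ^ ((52 : ℤ) - r))) ∧
      Real.exp (-(q ^ ((52 : ℤ) - r))) ≤ (G r : ℝ) / 2 ^ 256 + 1 / 2 ^ 230)
    (hT : ∀ j < i + 53, (U j : ℝ) / 2 ^ 256 ≤ T n k (p ^ ((360 : ℤ) - j)) ∧
      T n k (p ^ ((360 : ℤ) - j)) ≤ (U j : ℝ) / 2 ^ 256 + ε / p ^ ((360 : ℤ) - j)) :
    (((∑ r ∈ Finset.range (i + 53), G r * U (i + 52 - r)) /
        115792089237316195423570985008687907853269984665640564039457584007913129639936 : ℕ) : ℝ)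
        / 2 ^ 256 ≤ T (n + 1) k (p ^ ((360 : ℤ) - i)) ∧
      T (n + 1) k (p ^ ((360 : ℤ) - i)) ≤
        (((∑ r ∈ Finset.range (i + 53), G r * U (i + 52 - r)) /
        115792089237316195423570985008687907853269984665640564039457584007913129639936 : ℕ) :
          ℝ) / 2 ^ 256 +
        (41 * ε + 1 / 2 ^ 100) / p ^ ((360 : ℤ) - i) := by
  have hq := st_q_pos
  have hp := st_p_pos
  obtain ⟨X, hXd⟩ : ∃ X : ℝ, X = p ^ ((360 : ℤ) - i) := ⟨_, rfl⟩
  have hX : 0 < X := by rw [hXd]; positivity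
  obtain ⟨u, hud⟩ : ∃ u : ℤ → ℝ, u = fun j => Real.exp (-(q ^ j)) * T n k (X * p ^ (-j)) := ⟨_, rfl⟩
  have hu : Summable u := by rw [hud]; exact T_summable n k hX
  have hu0 : ∀ k, 0 ≤ u k := fun k => by
    rw [hud]
    exact mul_nonneg (Real.exp_pos _).le (T_nonneg _ _ (by positivity))
  have hS : T (n + 1) k X = ∑' k, u k := by rw [hud]; rfl
  rw [← hXd, hS]
  obtain ⟨D, hD⟩ : ∃ D : ℕ, D = ∑ r ∈ Finset.range (i + 53), G r * U (i + 52 - r) := ⟨_, rfl⟩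
  rw [← hD]
  have hTT : ∀ r < i + 53, X * p ^ (-(52 - (r : ℤ))) = p ^ ((360 : ℤ) - ((i + 52 - r : ℕ) : ℤ)) := by
    intro r hr
    rw [hXd, ← zpow_add₀ hp.ne']
    congr 1
    omega
  have hTr : ∀ r < i + 53, (U (i + 52 - r) : ℝ) / 2 ^ 256 ≤ T n k (X * p ^ (-(52 - (r : ℤ)))) ∧
      T n k (X * p ^ (-(52 - (r : ℤ)))) ≤ (U (i + 52 - r) : ℝ) / 2 ^ 256 +
        ε / (X * p ^ (-(52 - (r : ℤ)))) := by
    intro r hr
    have h1 := hT (i + 52 - r) (by omega)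
    rw [← hTT r hr] at h1
    exact h1
  have hDR : (D : ℝ) / 2 ^ 256 / 2 ^ 256 =
      ∑ r ∈ Finset.range (i + 53), ((G r : ℝ) / 2 ^ 256) * ((U (i + 52 - r) : ℝ) / 2 ^ 256) := by
    rw [hD]
    push_cast
    rw [div_div, Finset.sum_div]
    refine Finset.sum_congr rfl fun r _ => ?_
    rw [div_mul_div_comm]
  have hR : (115792089237316195423570985008687907853269984665640564039457584007913129639936 : ℝ) =
      2 ^ 256 := by norm_num
  have hfl1 : ((D / 115792089237316195423570985008687907853269984665640564039457584007913129639936 : ℕ) : ℝ)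
      ≤ (D : ℝ) / 2 ^ 256 := by
    have := @Nat.cast_div_le ℝ _ _ _ D
      115792089237316195423570985008687907853269984665640564039457584007913129639936
    push_cast at this
    rw [hR] at this
    exact this
  have hfl2 : (D : ℝ) / 2 ^ 256 ≤
      ((D / 115792089237316195423570985008687907853269984665640564039457584007913129639936 : ℕ) : ℝ) + 1 := by
    have h1 := Nat.lt_div_mul_add (a := D)
      (b := 115792089237316195423570985008687907853269984665640564039457584007913129639936) (by norm_num)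
    have h2 : (D : ℝ) ≤
        ((D / 115792089237316195423570985008687907853269984665640564039457584007913129639936 : ℕ) : ℝ) *
        115792089237316195423570985008687907853269984665640564039457584007913129639936 +
        115792089237316195423570985008687907853269984665640564039457584007913129639936 := by
      exact_mod_cast h1.le
    rw [hR] at h2
    rw [div_le_iff₀ (by positivity)]
    linarith
  constructor
  · have h1 := st_sum_le hu hu0 i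
    refine le_trans ?_ h1
    have h2 : ((D / 115792089237316195423570985008687907853269984665640564039457584007913129639936 : ℕ) : ℝ)
        / 2 ^ 256 ≤ (D : ℝ) / 2 ^ 256 / 2 ^ 256 :=
      div_le_div_of_nonneg_right hfl1 (by positivity)
    refine h2.trans ?_
    rw [hDR]
    refine Finset.sum_le_sum fun r hr => ?_
    rw [Finset.mem_range] at hr
    rw [hud]
    exact mul_le_mul (hG r hr).1 (hTr r hr).1 (by positivity) (Real.exp_pos _).le
  · rw [st_split hu i]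
    have hB : ∑' m : ℕ, u ((m : ℤ) + 53) ≤ 1 / 2 ^ 200 * (((k + 1).factorial : ℝ) * 41 ^ n / X) := by
      rw [hud]
      exact st_tailB n k hX
    have hC : ∑' m : ℕ, u (-((m + i : ℕ) : ℤ) - 1) ≤
        2 * (((k + 10).factorial : ℝ) * 7800 ^ n) * (20 / 21 : ℝ) ^ 3600 := by
      rw [hud, hXd]
      exact st_tailC n k i
    have hA : ∑ r ∈ Finset.range (i + 53), u (52 - (r : ℤ)) ≤ (D : ℝ) / 2 ^ 256 / 2 ^ 256 +
        266 * (1 / 2 ^ 230 * (((k + 1).factorial : ℝ) * 41 ^ n / X)) + 41 * ε / X := by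
      have h1 : ∀ r ∈ Finset.range (i + 53), u (52 - (r : ℤ)) ≤
          ((G r : ℝ) / 2 ^ 256) * ((U (i + 52 - r) : ℝ) / 2 ^ 256) +
          (1 / 2 ^ 230 * (((k + 1).factorial : ℝ) * 41 ^ n / X)) * p ^ (52 - (r : ℤ)) +
          ε / X * (Real.exp (-(q ^ (52 - (r : ℤ)))) * p ^ (52 - (r : ℤ))) := by
        intro r hr
        rw [Finset.mem_range] at hr
        obtain ⟨g1, g2⟩ := hG r hr
        obtain ⟨t1, t2⟩ := hTr r hr
        have hs := T_le_one n k (m := X * p ^ (-(52 - (r : ℤ)))) (by positivity)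
        have hup : u (52 - (r : ℤ)) =
            Real.exp (-(q ^ (52 - (r : ℤ)))) * T n k (X * p ^ (-(52 - (r : ℤ)))) := by rw [hud]
        rw [hup]
        rw [zpow_neg] at t1 t2 hs ⊢
        have hp' : 0 < p ^ (52 - (r : ℤ)) := by positivity
        obtain ⟨C, hCd⟩ : ∃ C : ℝ, C = ((k + 1).factorial : ℝ) * 41 ^ n := ⟨_, rfl⟩
        obtain ⟨e, he⟩ : ∃ e : ℝ, e = Real.exp (-(q ^ (52 - (r : ℤ)))) := ⟨_, rfl⟩
        obtain ⟨s, hsd⟩ : ∃ s : ℝ, s = T n k (X * (p ^ (52 - (r : ℤ)))⁻¹) := ⟨_, rfl⟩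
        obtain ⟨P, hpd⟩ : ∃ P : ℝ, P = p ^ (52 - (r : ℤ)) := ⟨_, rfl⟩
        obtain ⟨gg, hgg⟩ : ∃ gg : ℝ, gg = (G r : ℝ) / 2 ^ 256 := ⟨_, rfl⟩
        obtain ⟨tt, htt⟩ : ∃ tt : ℝ, tt = (U (i + 52 - r) : ℝ) / 2 ^ 256 := ⟨_, rfl⟩
        have he0 : 0 ≤ e := by rw [he]; exact (Real.exp_pos _).le
        have htt0 : 0 ≤ tt := by rw [htt]; positivity
        rw [← hsd] at t1 t2 hs ⊢
        rw [← hpd] at hp' t2 hs ⊢
        rw [← he] at g1 g2 ⊢
        rw [← hgg] at g1 g2 ⊢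
        rw [← htt] at t1 t2 ⊢
        rw [← hCd] at hs ⊢
        have h2 : e * s ≤ e * (tt + ε / (X * P⁻¹)) := mul_le_mul_of_nonneg_left t2 he0
        have h3 : e * tt ≤ (gg + 1 / 2 ^ 230) * tt := mul_le_mul_of_nonneg_right g2 htt0
        have h4 : (1 / 2 ^ 230 : ℝ) * tt ≤ 1 / 2 ^ 230 * (C / (X * P⁻¹)) :=
          mul_le_mul_of_nonneg_left (t1.trans hs) (by positivity)
        have h5 : 1 / 2 ^ 230 * (C / (X * P⁻¹)) = 1 / 2 ^ 230 * (C / X) * P := by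
          rw [← div_div, div_inv_eq_mul]
          ring
        have h6 : e * (tt + ε / (X * P⁻¹)) = e * tt + ε / X * (e * P) := by
          rw [← div_div, div_inv_eq_mul]
          ring
        linarith
      refine (Finset.sum_le_sum h1).trans ?_
      rw [Finset.sum_add_distrib, Finset.sum_add_distrib, ← Finset.mul_sum, ← Finset.mul_sum, hDR]
      have hc0 : 0 ≤ 1 / 2 ^ 230 * (((k + 1).factorial : ℝ) * 41 ^ n / X) := by positivity
      have h7 := mul_le_mul_of_nonneg_left (st_geo (i + 53)) hc0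
      have h8 : ∑ r ∈ Finset.range (i + 53),
          (Real.exp (-(q ^ (52 - (r : ℤ)))) * p ^ (52 - (r : ℤ))) ≤ 41 :=
        (st_sum_le thetaOne.1 (fun k => by positivity) i).trans thetaOne.2
      have h9 := mul_le_mul_of_nonneg_left h8 (by positivity : 0 ≤ ε / X)
      have h11 : ε / X * 41 = 41 * ε / X := by ring
      linarith
    have hD2 : (D : ℝ) / 2 ^ 256 / 2 ^ 256 ≤
        ((D / 115792089237316195423570985008687907853269984665640564039457584007913129639936 : ℕ) : ℝ)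
          / 2 ^ 256 + 1 / 2 ^ 256 := by
      rw [← add_div]
      exact div_le_div_of_nonneg_right hfl2 (by positivity)
    have hX2 : X ≤ p ^ (360 : ℤ) := by
      rw [hXd]
      apply zpow_le_zpow_right₀
      · unfold p
        norm_num
      · omega
    have h12 := st_num hk hn hX hX2
    have h14 : (41 * ε + 1 / 2 ^ 100) / X = 41 * ε / X + 1 / 2 ^ 100 / X := by ring
    rw [h14]
    obtain ⟨y1, hy1⟩ : ∃ y : ℝ, y = 266 * (1 / 2 ^ 230 * (((k + 1).factorial : ℝ) * 41 ^ n / X)) :=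
      ⟨_, rfl⟩
    obtain ⟨y2, hy2⟩ : ∃ y : ℝ, y = 1 / 2 ^ 200 * (((k + 1).factorial : ℝ) * 41 ^ n / X) :=
      ⟨_, rfl⟩
    obtain ⟨y3, hy3⟩ : ∃ y : ℝ, y = 2 * (((k + 10).factorial : ℝ) * 7800 ^ n) *
      (20 / 21 : ℝ) ^ 3600 := ⟨_, rfl⟩
    obtain ⟨y4, hy4⟩ : ∃ y : ℝ, y = 1 / 2 ^ 256 := ⟨_, rfl⟩
    obtain ⟨y5, hy5⟩ : ∃ y : ℝ, y = 1 / 2 ^ 100 / X := ⟨_, rfl⟩
    obtain ⟨y6, hy6⟩ : ∃ y : ℝ, y = 41 * ε / X := ⟨_, rfl⟩
    obtain ⟨y7, hy7⟩ : ∃ y : ℝ, y = (D : ℝ) / 2 ^ 256 / 2 ^ 256 := ⟨_, rfl⟩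
    obtain ⟨y8, hy8⟩ : ∃ y : ℝ, y =
      ((D / 115792089237316195423570985008687907853269984665640564039457584007913129639936 : ℕ) : ℝ)
          / 2 ^ 256 := ⟨_, rfl⟩
    rw [← hy7, ← hy8, ← hy4] at hD2
    rw [← hy7, ← hy1, ← hy6] at hA
    rw [← hy2] at hB
    rw [← hy3] at hC
    rw [← hy1, ← hy2, ← hy3, ← hy4, ← hy5] at h12
    rw [← hy8, ← hy6, ← hy5]
    clear hy1 hy2 hy3 hy4 hy5 hy6 hy7 hy8 hR hfl1 hfl2 hDR h14
    linarith

theorem step_ok {g t : List ℕ} {k n : ℕ} {ε : ℝ} (hg : GOK g) (ht : TOK k n 360 ε t)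
    (hlen : t.length ≤ g.length) (hk : k ≤ 15) (hn : n ≤ 3) (hε : 0 ≤ ε) :
    TOK k (n + 1) 360 (41 * ε + 1 / 2 ^ 100) (stepL g t) := by
  intro i hi
  have hi' := hi
  rw [stepL_length] at hi'
  have hi2 : i + 53 ≤ t.length := by omega
  have hget : (stepL g t)[i] = (∑ r ∈ Finset.range (i + 53),
      (fun r => g.getD r 0) r * (fun j => t.getD j 0) (i + 52 - r)) /
      115792089237316195423570985008687907853269984665640564039457584007913129639936 := by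
    simp only [stepL, List.getElem_map, List.getElem_range]
    rfl
  rw [hget]
  refine st_real hε hk hn i (fun r => g.getD r 0) (fun j => t.getD j 0) ?_ ?_
  · intro r hr
    have h2 : r < g.length := by omega
    have h3 := hg r h2
    simp only [List.getD_eq_getElem _ _ h2]
    exact h3
  · intro j hj
    have h2 : j < t.length := by omega
    have h3 := ht j h2
    simp only [List.getD_eq_getElem _ _ h2]
    exact h3

end H81.SG
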