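import Pool.Agent.H81.SG.TrapN
import Pool.Agent.H81.SG.Step
import Pool.Agent.H81.SG.Init
import Pool.Agent.H81.SG.ETab
import Pool.Agent.H81.SG.FamF
import Pool.Agent.H25.SD.Chk

/-!
# The kernel pass: initial table, four steps, comparison with the printed lists
-/

namespace H81.SG

open H81.L2 H46.SB

/-! ## fast versions of the list functions -/

/-- `c` digits of `Q`, each divided by `2^256`, continuation style -/
def ext (B c : ℕ) : ℕ → (List ℕ → Bool) → Bool :=
  Nat.rec (motive := fun _ => ℕ → (List ℕ → Bool) → Bool) (fun _ k => k [])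
    (fun _ ih Q k =>
      force1 (Nat.div (Nat.mod Q B)
        115792089237316195423570985008687907853269984665640564039457584007913129639936) fun v =>
        force1 (Nat.div Q B) fun Q' => ih Q' fun l => k (v :: l)) c

/-- the list computed by `ext` -/
def extL (B : ℕ) : ℕ → ℕ → List ℕ
  | 0, _ => []
  | c + 1, Q => (Q % B /
      115792089237316195423570985008687907853269984665640564039457584007913129639936) ::
        extL B c (Q / B)

theorem ext_eq (B c Q : ℕ) (k : List ℕ → Bool) : ext B c Q k = k (extL B c Q) := by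
  induction c generalizing Q k with
  | zero => rfl
  | succ c ih =>
    have h : ext B (c + 1) Q k = ext B c (Q / B) fun l =>
      k ((Q % B /
        115792089237316195423570985008687907853269984665640564039457584007913129639936) :: l) := rfl
    rw [h, ih]
    rfl

theorem extL_length (B c Q : ℕ) : (extL B c Q).length = c := by
  induction c generalizing Q with
  | zero => rfl
  | succ c ih => simp [extL, ih]

theorem extL_getElem (B c Q i : ℕ) (h : i < (extL B c Q).length) :
    (extL B c Q)[i] = Q / B ^ i % B /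
      115792089237316195423570985008687907853269984665640564039457584007913129639936 := by
  induction c generalizing Q i with
  | zero => simp [extL] at h
  | succ c ih =>
    cases i with
    | zero => simp [extL]
    | succ i =>
      simp only [extL, List.getElem_cons_succ]
      rw [ih, pow_succ', ← Nat.div_div_eq_div_mul]

/-- one step -/
def stepK (B gs gp : ℕ) (t : List ℕ) (k : List ℕ → Bool) : Bool :=
  and (Nat.blt (Nat.mul gs (sumL t)) B)
    (force1 (Nat.div (Nat.mul gp (packL B t)) (Nat.pow B 52)) fun Q =>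
      ext B (Nat.sub t.length 52) Q k)

theorem stepK_spec {B : ℕ} {g t : List ℕ} (k : List ℕ → Bool)
    (h : stepK B (sumL g) (packL B g) t k = true) : k (stepL g t) = true := by
  have h' : (Nat.blt (sumL g * sumL t) B &&
      ext B (t.length - 52) (packL B g * packL B t / B ^ 52) k) = true := h
  rw [Bool.and_eq_true, Nat.blt_eq, ext_eq] at h'
  obtain ⟨h1, h2⟩ := h'
  have hc : ∀ m, cf g t m < B := fun m => lt_of_le_of_lt (cf_le g t m) h1
  have hB : 0 < B := by omega
  have e : stepL g t = extL B (t.length - 52) (packL B g * packL B t / B ^ 52) := by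
    apply List.ext_getElem
    · rw [stepL_length, extL_length]
    · intro i hi1 hi2
      rw [extL_getElem]
      rw [stepL_length] at hi1
      have h3 : (stepL g t)[i]'(by rw [stepL_length]; exact hi1) = cf g t (i + 52) /
          115792089237316195423570985008687907853269984665640564039457584007913129639936 := by
        simp [stepL]
      rw [h3, pack_mul B g t (g.length + t.length) le_rfl, pk_div_pow hB 52 _ _ hc,
        pk_div_pow hB i _ _ (fun m => hc _)]
      obtain ⟨w, hw⟩ : ∃ w, g.length + t.length - 52 - i = w + 1 :=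
        ⟨g.length + t.length - 52 - i - 1, by omega⟩
      rw [hw]
      have h5 := pk_mod (B := B) (c := fun m => cf g t (m + i + 52)) w (hc _)
      rw [h5]
      simp only [zero_add]
  rw [e]
  exact h2

/-- `initA`, continuation style -/
def initAK (k : ℕ) (l : List ℕ) : ℕ → (List ℕ → Bool) → Bool :=
  List.rec (motive := fun _ => ℕ → (List ℕ → Bool) → Bool) (fun _ c => c [])
    (fun e _ ih j c => force1 (Nat.div (Nat.mul e (Nat.pow 21 (Nat.mul j k)))
      (Nat.pow 20 (Nat.mul j k))) fun v => force1 (Nat.sub j 1) fun j' => ih j' fun l => c (v :: l)) l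

theorem initAK_eq (k : ℕ) (l : List ℕ) (j : ℕ) (c : List ℕ → Bool) :
    initAK k l j c = c (initA k l j) := by
  induction l generalizing j c with
  | nil => rfl
  | cons e l ih =>
    have h : initAK k (e :: l) j c = initAK k l (j - 1) fun l =>
      c ((e * 21 ^ (j * k) / 20 ^ (j * k)) :: l) := rfl
    rw [h, ih]
    rfl

/-- `initB`, continuation style -/
def initBK (k : ℕ) (l : List ℕ) : ℕ → (List ℕ → Bool) → Bool :=
  List.rec (motive := fun _ => ℕ → (List ℕ → Bool) → Bool) (fun _ c => c [])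
    (fun e _ ih j c => force1 (Nat.div (Nat.mul e (Nat.pow 20 (Nat.mul j k)))
      (Nat.pow 21 (Nat.mul j k))) fun v => force1 (Nat.add j 1) fun j' => ih j' fun l => c (v :: l)) l

theorem initBK_eq (k : ℕ) (l : List ℕ) (j : ℕ) (c : List ℕ → Bool) :
    initBK k l j c = c (initB k l j) := by
  induction l generalizing j c with
  | nil => rfl
  | cons e l ih =>
    have h : initBK k (e :: l) j c = initBK k l (j + 1) fun l =>
      c ((e * 20 ^ (j * k) / 21 ^ (j * k)) :: l) := rfl
    rw [h, ih]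
    rfl

/-- comparison with the printed list: `x / 2^184 - e = y` (truncated) -/
def chkOut (e : ℕ) : List ℕ → List ℕ → Bool
  | _, [] => true
  | [], _ :: _ => false
  | x :: xs, y :: ys =>
    Nat.beq (Nat.sub (Nat.div x 24519928653854221733733552434404946937899825954937634816) e) y &&
      chkOut e xs ys

theorem chkOut_spec {e : ℕ} : ∀ {l m : List ℕ}, chkOut e l m = true →
    m.length ≤ l.length ∧ ∀ i (h : i < m.length) (h' : i < l.length), l[i] / 2 ^ 184 - e = m[i]
  | _, [], _ => ⟨by simp, fun i h => by simp at h⟩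
  | [], _ :: _, h => by simp [chkOut] at h
  | x :: xs, y :: ys, h => by
    simp only [chkOut, Bool.and_eq_true, Nat.beq_eq] at h
    obtain ⟨h1, h2⟩ := chkOut_spec h.2
    refine ⟨by simpa using h1, fun i hi hi' => ?_⟩
    cases i with
    | zero => exact h.1
    | succ i => exact h2 i (by simpa using hi) (by simpa using hi')

/-- the complete pass for one `k` -/
def pass (B gs gp k : ℕ) (l1 l2 L2 L3 L4 : List ℕ) : Bool :=
  initAK k l1 107 fun a => initBK k l2 1 fun b =>
    stepK B gs gp (List.replicate 253 0 ++ (a ++ b)) fun t1 => stepK B gs gp t1 fun t2 =>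
      chkOut 512 (t2.drop 235) L2.reverse && stepK B gs gp t2 fun t3 =>
        chkOut 32768 (t3.drop 235) L3.reverse && stepK B gs gp t3 fun t4 =>
          chkOut 2097152 (t4.drop 235) L4.reverse

/-- a certified row -/
def RowOK (n k Er : ℕ) (L : List ℕ) : Prop :=
  L.length = 256 ∧ ∀ i, i ≤ 255 → ((L.getD i 0 : ℕ) : ℝ) ≤ 2 ^ 72 / hh ^ n * Fk n k (p ^ ((i : ℤ) - 130)) ∧
    2 ^ 72 / hh ^ n * Fk n k (p ^ ((i : ℤ) - 130)) ≤ ((L.getD i 0 : ℕ) : ℝ) + Er

theorem p_pos : 0 < p := by unfold p; norm_num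

theorem row_aux {a X Z m e : ℝ} (hm : 1 / m ≤ X) (ha : 0 ≤ a) (hZ : 0 ≤ Z) (h : a * X * Z ≤ e) :
    a / m * Z ≤ e := by
  refine le_trans ?_ h
  have e1 : a / m = a * (1 / m) := by ring
  rw [e1]
  exact mul_le_mul_of_nonneg_right (mul_le_mul_of_nonneg_left hm ha) hZ

theorem p_130 : p ^ (130 : ℤ) = (21 / 20 : ℝ) ^ 130 := by
  unfold p
  norm_cast

theorem row_of {n k e : ℕ} {t L : List ℕ} {c100 X Z : ℝ} (hc100 : c100 = 2 ^ 100)
    (hX : X = (21 / 20 : ℝ) ^ 130) (hZZ : Z = 2 ^ 72) (ht : TOK k n 360 (42 ^ n / c100) t)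
    (hc : chkOut e (t.drop 235) L.reverse = true) (hL : L.length = 256)
    (he : (n : ℝ) * 52 ^ n * A k * X * Z ≤ e)
    (he2 : (42 : ℝ) ^ n / c100 * X * Z ≤ 7) : RowOK n k (2 * e + 8) L := by
  have hZ : 0 ≤ Z := by rw [hZZ]; positivity
  refine ⟨hL, fun i hi => ?_⟩
  obtain ⟨h1, h2⟩ := chkOut_spec hc
  rw [List.length_reverse, hL, List.length_drop] at h1
  have hi2 : 255 - i < L.reverse.length := by rw [List.length_reverse, hL]; omega
  have hi3 : 255 - i < (t.drop 235).length := by rw [List.length_drop]; omega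
  have h3 := h2 (255 - i) hi2 hi3
  have h4 : L.reverse[255 - i] = L.getD i 0 := by
    rw [List.getElem_reverse, List.getD_eq_getElem _ _ (by omega)]
    congr 1
    omega
  rw [List.getElem_drop, h4] at h3
  have hi4 : 235 + (255 - i) < t.length := by omega
  obtain ⟨h5, h6⟩ := ht (235 + (255 - i)) hi4
  have hexp : ((360 : ℕ) : ℤ) - ((235 + (255 - i) : ℕ) : ℤ) = (i : ℤ) - 130 := by
    push_cast [Nat.cast_sub hi]
    ring
  rw [hexp] at h5 h6
  set m : ℝ := p ^ ((i : ℤ) - 130) with hm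
  have hm0 : 0 < m := zpow_pos p_pos _
  have htr := trapN' n k hm0
  rw [abs_le] at htr
  -- lower bound for `m`
  have hm1 : 1 / m ≤ X := by
    rw [hX, ← p_130, hm, one_div, ← zpow_neg, show -((i : ℤ) - 130) = 130 - (i : ℤ) by ring]
    exact zpow_le_zpow_right₀ (by unfold p; norm_num) (by omega)
  have hA : 0 ≤ A k := by unfold A; positivity
  have hn0 : (0 : ℝ) ≤ (n : ℝ) * 52 ^ n * A k :=
    mul_nonneg (mul_nonneg (Nat.cast_nonneg n) (pow_nonneg (by norm_num) n)) hA
  have hE1 := row_aux hm1 hn0 hZ he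
  have hn1 : (0 : ℝ) ≤ (42 : ℝ) ^ n / c100 := div_nonneg (pow_nonneg (by norm_num) n)
    (le_of_le_of_eq (pow_nonneg (by norm_num : (0 : ℝ) ≤ 2) 100) hc100.symm)
  have hE2 := row_aux hm1 hn1 hZ he2
  -- the division by `2^184`
  set x : ℕ := t[235 + (255 - i)] with hx
  have hd1 : ((x / 2 ^ 184 : ℕ) : ℝ) * 2 ^ 184 ≤ x := by
    have := Nat.div_mul_le_self x (2 ^ 184)
    exact_mod_cast this
  have hd2 : (x : ℝ) ≤ ((x / 2 ^ 184 : ℕ) : ℝ) * 2 ^ 184 + 2 ^ 184 := by
    have := Nat.lt_div_mul_add (a := x) (b := 2 ^ 184) (by positivity)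
    have h7 : x ≤ x / 2 ^ 184 * 2 ^ 184 + 2 ^ 184 := this.le
    exact_mod_cast h7
  have hF0 : 0 ≤ Fk n k m := ((fam n).pos k m hm0).le
  have hh0 : 0 < hh := by have := hh_bounds.1; linarith
  have hd3 : ((x / 2 ^ 184 : ℕ) : ℝ) ≤ (L.getD i 0 : ℝ) + e := by
    have : x / 2 ^ 184 ≤ L.getD i 0 + e := by omega
    exact_mod_cast this
  have hd4 : L.getD i 0 = 0 ∨ x / 2 ^ 184 = L.getD i 0 + e := by omega
  rw [← hZZ]
  have hF : Z / hh ^ n * Fk n k m = Z * (Fk n k m / hh ^ n) := by ring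
  rw [hF]
  set F : ℝ := Fk n k m / hh ^ n with hFdef
  set T0 : ℝ := T n k m with hT0
  set D : ℝ := (n : ℝ) * 52 ^ n * A k / m with hD
  set e2 : ℝ := (42 : ℝ) ^ n / c100 / m with he2'
  have g1 : (x : ℝ) / 2 ^ 256 * Z = x / 2 ^ 184 := by
    rw [hZZ, div_mul_eq_mul_div, div_eq_div_iff (by positivity) (by positivity)]
    ring
  have g2 : (x : ℝ) / 2 ^ 184 ≤ (L.getD i 0 : ℝ) + e + 1 := by
    rw [div_le_iff₀ (by positivity)]
    have : ((x / 2 ^ 184 : ℕ) : ℝ) * 2 ^ 184 ≤ ((L.getD i 0 : ℝ) + e) * 2 ^ 184 :=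
      mul_le_mul_of_nonneg_right hd3 (by positivity)
    linarith
  constructor
  · -- lower
    rcases hd4 with h0 | h0
    · rw [h0, Nat.cast_zero]
      exact mul_nonneg hZ (div_nonneg hF0 (pow_nonneg hh0.le n))
    · have g3 : (L.getD i 0 : ℝ) + e ≤ (x : ℝ) / 2 ^ 184 := by
        rw [le_div_iff₀ (by positivity)]
        rw [h0] at hd1
        push_cast at hd1
        exact hd1
      have k1 : T0 - D ≤ F := by linarith [htr.1]
      have k2 : Z * (T0 - D) ≤ Z * F := mul_le_mul_of_nonneg_left k1 hZ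
      have k3 : (x : ℝ) / 2 ^ 256 * Z ≤ T0 * Z := mul_le_mul_of_nonneg_right h5 hZ
      rw [g1] at k3
      linarith
  · have k1 : F ≤ T0 + D := by linarith [htr.2]
    have k2 : Z * F ≤ Z * (T0 + D) := mul_le_mul_of_nonneg_left k1 hZ
    have k3 : T0 * Z ≤ ((x : ℝ) / 2 ^ 256 + e2) * Z :=
      mul_le_mul_of_nonneg_right h6 hZ
    rw [add_mul, g1] at k3
    push_cast
    linarith

theorem A_le {k : ℕ} (hk : k ≤ 14) : A k ≤ 1307674368000 * (3 / 2) ^ 15 / 2 ^ 134 := by
  unfold A
  have h1 : ((k + 1).factorial : ℝ) ≤ 1307674368000 := by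
    have : (k + 1).factorial ≤ (15).factorial := Nat.factorial_le (by omega)
    have h2 : (15).factorial = 1307674368000 := by decide
    rw [h2] at this
    exact_mod_cast this
  have h2 : ((3 : ℝ) / 2) ^ (k + 1) ≤ (3 / 2) ^ 15 := pow_le_pow_right₀ (by norm_num) (by omega)
  gcongr

theorem pass_spec {B k : ℕ} (hk : k ≤ 14) {g l1 l2 L2 L3 L4 : List ℕ} (hg : GOK g)
    (hE : EOK (l1 ++ l2)) (hl1 : l1.length = 108) (hl2 : l2.length = 338) (hgl : 699 ≤ g.length)
    (hL2 : L2.length = 256) (hL3 : L3.length = 256) (hL4 : L4.length = 256)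
    (h : pass B (sumL g) (packL B g) k l1 l2 L2 L3 L4 = true) :
    RowOK 2 k 1032 L2 ∧ RowOK 3 k 65544 L3 ∧ RowOK 4 k 4194312 L4 := by
  unfold pass at h
  rw [initAK_eq, initBK_eq] at h
  have h0 : TOK k 0 360 (1 / 2 ^ 100) (init0 k l1 l2) := init_ok (by omega) hl1 hE
  have hlen0 : (init0 k l1 l2).length = 699 := by rw [init0_length, hl1, hl2]
  have h1 := stepK_spec _ h
  have s1 := step_ok hg h0 (by omega) (by omega : k ≤ 15) (by norm_num) (by positivity)
  have e1 : (stepL g (init0 k l1 l2)).length = 647 := by rw [stepL_length, hlen0]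
  have h2 := stepK_spec _ h1
  have s2 := step_ok hg s1 (by rw [e1]; omega) (by omega : k ≤ 15) (by norm_num) (by positivity)
  have e2 : (stepL g (stepL g (init0 k l1 l2))).length = 595 := by rw [stepL_length, e1]
  change (_ && _) = true at h2
  rw [Bool.and_eq_true] at h2
  have h3 := stepK_spec _ h2.2
  have s3 := step_ok hg s2 (by rw [e2]; omega) (by omega : k ≤ 15) (by norm_num) (by positivity)
  have e3 : (stepL g (stepL g (stepL g (init0 k l1 l2)))).length = 543 := by rw [stepL_length, e2]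
  change (_ && _) = true at h3
  rw [Bool.and_eq_true] at h3
  have h4 := stepK_spec _ h3.2
  have s4 := step_ok hg s3 (by rw [e3]; omega) (by omega : k ≤ 15) (by norm_num) (by positivity)
  have mono : ∀ {n : ℕ} {t : List ℕ} {ε ε' : ℝ}, TOK k n 360 ε t → ε ≤ ε' → TOK k n 360 ε' t := by
    intro n t ε ε' ht hε i hi
    obtain ⟨a, b⟩ := ht i hi
    refine ⟨a, b.trans ?_⟩
    have : 0 < p ^ (((360 : ℕ) : ℤ) - i) := zpow_pos p_pos _
    gcongr
  have hA := A_le hk
  have hA0 : 0 ≤ A k := by unfold A; positivity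
  refine ⟨?_, ?_, ?_⟩
  · refine row_of (e := 512) rfl rfl rfl (mono s2 (by norm_num)) h2.1 hL2 ?_ (by norm_num)
    calc ((2 : ℕ) : ℝ) * 52 ^ 2 * A k * (21 / 20) ^ 130 * 2 ^ 72 ≤
        ((2 : ℕ) : ℝ) * 52 ^ 2 * (1307674368000 * (3 / 2) ^ 15 / 2 ^ 134) * (21 / 20) ^ 130 * 2 ^ 72 := by
          gcongr
      _ ≤ ((512 : ℕ) : ℝ) := by norm_num
  · refine row_of (e := 32768) rfl rfl rfl (mono s3 (by norm_num)) h3.1 hL3 ?_ (by norm_num)
    calc ((3 : ℕ) : ℝ) * 52 ^ 3 * A k * (21 / 20) ^ 130 * 2 ^ 72 ≤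
        ((3 : ℕ) : ℝ) * 52 ^ 3 * (1307674368000 * (3 / 2) ^ 15 / 2 ^ 134) * (21 / 20) ^ 130 * 2 ^ 72 := by
          gcongr
      _ ≤ ((32768 : ℕ) : ℝ) := by norm_num
  · refine row_of (e := 2097152) rfl rfl rfl (mono s4 (by norm_num)) h4 hL4 ?_ (by norm_num)
    calc ((4 : ℕ) : ℝ) * 52 ^ 4 * A k * (21 / 20) ^ 130 * 2 ^ 72 ≤
        ((4 : ℕ) : ℝ) * 52 ^ 4 * (1307674368000 * (3 / 2) ^ 15 / 2 ^ 134) * (21 / 20) ^ 130 * 2 ^ 72 := by
          gcongr
      _ ≤ ((2097152 : ℕ) : ℝ) := by norm_num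

theorem pass_spec' {B k : ℕ} (hk : k ≤ 14) {g l1 l2 L2 L3 L4 : List ℕ} (hg : GOK g)
    (hE : EOK (l1 ++ l2)) (hl1 : l1.length = 108) (hl2 : l2.length = 338) (hgl : 699 ≤ g.length)
    (hL2 : L2.length = 256) (hL3 : L3.length = 256) (hL4 : L4.length = 256)
    (h : force1 (sumL g) (fun gs => force1 (packL B g) fun gp => pass B gs gp k l1 l2 L2 L3 L4) = true) :
    RowOK 2 k 1032 L2 ∧ RowOK 3 k 65544 L3 ∧ RowOK 4 k 4194312 L4 := by
  rw [force1_eq, force1_eq] at h
  exact pass_spec hk hg hE hl1 hl2 hgl hL2 hL3 hL4 h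

end H81.SG
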