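import Pool.Agent.H81.SG.Defs

/-!
# Module SUMS: crude bounds for the trapezoid sums

`thetaOne`: for `i ≥ 0`: `exp (-q^i) ≤ q^(-i)` (`x ≤ e^x`), so the terms are at most `p^(-i)`, sum `21`; for
`i < 0` they are at most `p^i`, sum `20`.  `thetaTen`: for `i ≥ 0`: `exp (-x) ≤ 720/x^6`, terms at most
`720 q^(-i)`, sum `720 · 441/41 ≤ 7745`; for `i < 0` at most `q^(5i)`, sum `1/(q^5 - 1) ≤ 2`.
`T`: induction on `n` (for all `m` at once), `T 0 k m = m^k e^(-m) ≤ (k+1)!/m` and `≤ (k+10)!/m^10`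
(`Real.pow_div_factorial_le_exp`); `(m p^(-i))^(-1) = p^i/m`, `(m p^(-i))^(-10) = (q^i)^5/m^10`.
Compare `Pool/Agent/H81/L2/SBound.lean` (last part) for the structure of the induction.
-/

namespace H81.SG

private theorem sg_tail (f : ℕ → ℝ) (hf0 : ∀ i, 0 ≤ f i) (c r : ℝ) (hr0 : 0 ≤ r)
    (hr1 : r < 1) (h : ∀ i, f i ≤ c * r ^ i) :
    Summable f ∧ ∑' i, f i ≤ c / (1 - r) := by
  have hg : Summable (fun i : ℕ => c * r ^ i) := (summable_geometric_of_lt_one hr0 hr1).mul_left c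
  have h1 : Summable f := Summable.of_nonneg_of_le hf0 h hg
  refine ⟨h1, ?_⟩
  have h3 : ∑' i, f i ≤ ∑' i : ℕ, c * r ^ i := h1.tsum_le_tsum h hg
  rw [tsum_mul_left, tsum_geometric_of_lt_one hr0 hr1] at h3
  rw [div_eq_mul_inv]
  exact h3

private theorem sg_int (f : ℤ → ℝ) (A B : ℝ)
    (h1 : Summable (fun n : ℕ => f n) ∧ ∑' n : ℕ, f n ≤ A)
    (h2 : Summable (fun n : ℕ => f (-(n + 1))) ∧ ∑' n : ℕ, f (-(n + 1)) ≤ B) :
    Summable f ∧ ∑' k : ℤ, f k ≤ A + B := by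
  refine ⟨Summable.of_nat_of_neg_add_one h1.1 h2.1, ?_⟩
  rw [tsum_of_nat_of_neg_add_one h1.1 h2.1]
  linarith [h1.2, h2.2]

private theorem q_nat (n : ℕ) : q ^ (n : ℤ) = (441 / 400 : ℝ) ^ n := by
  unfold q
  exact zpow_natCast _ n

private theorem q_neg (n : ℕ) : q ^ (-((n : ℤ) + 1)) = (400 / 441 : ℝ) ^ (n + 1) := by
  unfold q
  rw [zpow_neg, show ((n : ℤ) + 1) = ((n + 1 : ℕ) : ℤ) by push_cast; rfl, zpow_natCast, ← inv_pow]
  norm_num

private theorem p_nat (n : ℕ) : p ^ (n : ℤ) = (21 / 20 : ℝ) ^ n := by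
  unfold p
  exact zpow_natCast _ n

private theorem p_neg (n : ℕ) : p ^ (-((n : ℤ) + 1)) = (20 / 21 : ℝ) ^ (n + 1) := by
  unfold p
  rw [zpow_neg, show ((n : ℤ) + 1) = ((n + 1 : ℕ) : ℤ) by push_cast; rfl, zpow_natCast, ← inv_pow]
  norm_num

theorem thetaOne : Summable (fun i : ℤ => Real.exp (-(q ^ i)) * p ^ i) ∧
    ∑' i : ℤ, Real.exp (-(q ^ i)) * p ^ i ≤ 41 := by
  have h := sg_int (fun i : ℤ => Real.exp (-(q ^ i)) * p ^ i) 21 20 ?_ ?_
  · exact ⟨h.1, h.2.trans (by norm_num)⟩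
  · simp only [q_nat, p_nat]
    have h1 := sg_tail (fun n : ℕ => Real.exp (-((441 / 400 : ℝ) ^ n)) * (21 / 20 : ℝ) ^ n)
      (fun i => by positivity) 1 (20 / 21) (by norm_num) (by norm_num) ?_
    · exact ⟨h1.1, h1.2.trans (by norm_num)⟩
    · intro n
      have hx : (0 : ℝ) < (441 / 400 : ℝ) ^ n := by positivity
      have h2 : Real.exp (-((441 / 400 : ℝ) ^ n)) ≤ 1 / (441 / 400 : ℝ) ^ n := by
        rw [Real.exp_neg, inv_le_comm₀ (Real.exp_pos _) (by positivity), one_div, inv_inv]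
        linarith [Real.add_one_le_exp ((441 / 400 : ℝ) ^ n)]
      calc Real.exp (-((441 / 400 : ℝ) ^ n)) * (21 / 20 : ℝ) ^ n
          ≤ 1 / (441 / 400 : ℝ) ^ n * (21 / 20 : ℝ) ^ n :=
            mul_le_mul_of_nonneg_right h2 (by positivity)
        _ = 1 * (20 / 21 : ℝ) ^ n := by
            rw [one_div, one_mul, ← inv_pow, ← mul_pow]
            norm_num
  · simp only [q_neg, p_neg]
    have h1 := sg_tail
      (fun n : ℕ => Real.exp (-((400 / 441 : ℝ) ^ (n + 1))) * (20 / 21 : ℝ) ^ (n + 1))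
      (fun i => by positivity) (20 / 21) (20 / 21) (by norm_num) (by norm_num) ?_
    · exact ⟨h1.1, h1.2.trans (by norm_num)⟩
    · intro n
      have hx : (0 : ℝ) < (400 / 441 : ℝ) ^ (n + 1) := by positivity
      have h2 : Real.exp (-((400 / 441 : ℝ) ^ (n + 1))) ≤ 1 := by
        rw [Real.exp_le_one_iff]
        linarith
      calc Real.exp (-((400 / 441 : ℝ) ^ (n + 1))) * (20 / 21 : ℝ) ^ (n + 1)
          ≤ 1 * (20 / 21 : ℝ) ^ (n + 1) := mul_le_mul_of_nonneg_right h2 (by positivity)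
        _ = 20 / 21 * (20 / 21 : ℝ) ^ n := by rw [one_mul, pow_succ, mul_comm]

theorem thetaTen : Summable (fun i : ℤ => Real.exp (-(q ^ i)) * (q ^ i) ^ 5) ∧
    ∑' i : ℤ, Real.exp (-(q ^ i)) * (q ^ i) ^ 5 ≤ 7800 := by
  have h := sg_int (fun i : ℤ => Real.exp (-(q ^ i)) * (q ^ i) ^ 5) 7745 2 ?_ ?_
  · exact ⟨h.1, h.2.trans (by norm_num)⟩
  · simp only [q_nat]
    have h1 := sg_tail (fun n : ℕ => Real.exp (-((441 / 400 : ℝ) ^ n)) * ((441 / 400 : ℝ) ^ n) ^ 5)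
      (fun i => by positivity) 720 (400 / 441) (by norm_num) (by norm_num) ?_
    · exact ⟨h1.1, h1.2.trans (by norm_num)⟩
    · intro n
      have hx : (0 : ℝ) < (441 / 400 : ℝ) ^ n := by positivity
      have h2 : Real.exp (-((441 / 400 : ℝ) ^ n)) ≤ 720 / ((441 / 400 : ℝ) ^ n) ^ 6 := by
        have h1 := Real.pow_div_factorial_le_exp _ hx.le 6
        rw [Real.exp_neg, inv_le_comm₀ (Real.exp_pos _) (by positivity), inv_div]
        simpa [Nat.factorial] using h1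
      calc Real.exp (-((441 / 400 : ℝ) ^ n)) * ((441 / 400 : ℝ) ^ n) ^ 5
          ≤ 720 / ((441 / 400 : ℝ) ^ n) ^ 6 * ((441 / 400 : ℝ) ^ n) ^ 5 :=
            mul_le_mul_of_nonneg_right h2 (by positivity)
        _ = 720 * ((441 / 400 : ℝ) ^ n)⁻¹ := by
            field_simp
        _ = 720 * (400 / 441 : ℝ) ^ n := by
            rw [← inv_pow]
            norm_num
  · simp only [q_neg]
    have h1 := sg_tail
      (fun n : ℕ => Real.exp (-((400 / 441 : ℝ) ^ (n + 1))) * ((400 / 441 : ℝ) ^ (n + 1)) ^ 5)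
      (fun i => by positivity) ((400 / 441) ^ 5) ((400 / 441) ^ 5) (by norm_num) (by norm_num) ?_
    · exact ⟨h1.1, h1.2.trans (by norm_num)⟩
    · intro n
      have hx : (0 : ℝ) < (400 / 441 : ℝ) ^ (n + 1) := by positivity
      have h2 : Real.exp (-((400 / 441 : ℝ) ^ (n + 1))) ≤ 1 := by
        rw [Real.exp_le_one_iff]
        linarith
      calc Real.exp (-((400 / 441 : ℝ) ^ (n + 1))) * ((400 / 441 : ℝ) ^ (n + 1)) ^ 5
          ≤ 1 * ((400 / 441 : ℝ) ^ (n + 1)) ^ 5 := mul_le_mul_of_nonneg_right h2 (by positivity)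
        _ = (400 / 441 : ℝ) ^ 5 * ((400 / 441 : ℝ) ^ 5) ^ n := by
            rw [one_mul, ← pow_mul, ← pow_mul, ← pow_add]
            congr 1
            ring

private theorem q_pos : (0 : ℝ) < q := by unfold q; norm_num

private theorem p_pos : (0 : ℝ) < p := by unfold p; norm_num

private theorem q_eq (i : ℤ) : q ^ i = p ^ i * p ^ i := by
  rw [← mul_zpow]
  congr 1
  unfold q p
  norm_num

private theorem T_zero (k : ℕ) {m : ℝ} (hm : 0 < m) : 0 ≤ T 0 k m ∧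
    T 0 k m ≤ ((k + 1).factorial : ℝ) * 41 ^ 0 / m ∧
    T 0 k m ≤ ((k + 10).factorial : ℝ) * 7800 ^ 0 / m ^ 10 := by
  have h0 : T 0 k m = m ^ k * Real.exp (-m) := rfl
  have key : ∀ j : ℕ, m ^ k * Real.exp (-m) ≤ ((k + j).factorial : ℝ) / m ^ j := by
    intro j
    have h1 := Real.pow_div_factorial_le_exp m hm.le (k + j)
    rw [div_le_iff₀ (by positivity)] at h1
    rw [le_div_iff₀ (by positivity)]
    calc m ^ k * Real.exp (-m) * m ^ j = m ^ (k + j) * Real.exp (-m) := by rw [pow_add]; ring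
      _ ≤ Real.exp m * ((k + j).factorial : ℝ) * Real.exp (-m) :=
          mul_le_mul_of_nonneg_right h1 (Real.exp_pos _).le
      _ = ((k + j).factorial : ℝ) * (Real.exp m * Real.exp (-m)) := by ring
      _ = ((k + j).factorial : ℝ) := by rw [← Real.exp_add, add_neg_cancel, Real.exp_zero, mul_one]
  rw [h0]
  refine ⟨by positivity, ?_, ?_⟩
  · have := key 1
    rw [pow_one] at this
    rw [pow_zero, mul_one]
    exact this
  · rw [pow_zero, mul_one]
    exact key 10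

private theorem sg_main (k n : ℕ) : ∀ m : ℝ, 0 < m → 0 ≤ T n k m ∧
    T n k m ≤ ((k + 1).factorial : ℝ) * 41 ^ n / m ∧
    T n k m ≤ ((k + 10).factorial : ℝ) * 7800 ^ n / m ^ 10 ∧
    Summable (fun i : ℤ => Real.exp (-(q ^ i)) * T n k (m * p ^ (-i))) := by
  have hp := p_pos
  have one : ∀ n : ℕ, ∀ m : ℝ, 0 < m → ∀ i : ℤ,
      T n k (m * p ^ (-i)) ≤ ((k + 1).factorial : ℝ) * 41 ^ n / (m * p ^ (-i)) →
      Real.exp (-(q ^ i)) * T n k (m * p ^ (-i)) ≤
        ((k + 1).factorial : ℝ) * 41 ^ n / m * (Real.exp (-(q ^ i)) * p ^ i) := by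
    intro n m hm i h1
    have hpi : 0 < p ^ i := zpow_pos hp i
    calc Real.exp (-(q ^ i)) * T n k (m * p ^ (-i))
        ≤ Real.exp (-(q ^ i)) * (((k + 1).factorial : ℝ) * 41 ^ n / (m * p ^ (-i))) :=
          mul_le_mul_of_nonneg_left h1 (Real.exp_pos _).le
      _ = ((k + 1).factorial : ℝ) * 41 ^ n / m * (Real.exp (-(q ^ i)) * p ^ i) := by
          rw [zpow_neg]
          field_simp
  have ten : ∀ n : ℕ, ∀ m : ℝ, 0 < m → ∀ i : ℤ,
      T n k (m * p ^ (-i)) ≤ ((k + 10).factorial : ℝ) * 7800 ^ n / (m * p ^ (-i)) ^ 10 →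
      Real.exp (-(q ^ i)) * T n k (m * p ^ (-i)) ≤
        ((k + 10).factorial : ℝ) * 7800 ^ n / m ^ 10 * (Real.exp (-(q ^ i)) * (q ^ i) ^ 5) := by
    intro n m hm i h1
    have hpi : 0 < p ^ i := zpow_pos hp i
    calc Real.exp (-(q ^ i)) * T n k (m * p ^ (-i))
        ≤ Real.exp (-(q ^ i)) * (((k + 10).factorial : ℝ) * 7800 ^ n / (m * p ^ (-i)) ^ 10) :=
          mul_le_mul_of_nonneg_left h1 (Real.exp_pos _).le
      _ = ((k + 10).factorial : ℝ) * 7800 ^ n / m ^ 10 *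
          (Real.exp (-(q ^ i)) * (p ^ i * p ^ i) ^ 5) := by
          rw [zpow_neg]
          field_simp
      _ = _ := by rw [← q_eq]
  have key : ∀ n : ℕ, (∀ m : ℝ, 0 < m → 0 ≤ T n k m ∧
      T n k m ≤ ((k + 1).factorial : ℝ) * 41 ^ n / m ∧
      T n k m ≤ ((k + 10).factorial : ℝ) * 7800 ^ n / m ^ 10) →
      ∀ m : ℝ, 0 < m → Summable (fun i : ℤ => Real.exp (-(q ^ i)) * T n k (m * p ^ (-i))) := by
    intro n ih m hm
    refine Summable.of_nonneg_of_le (fun i => ?_) (fun i => ?_)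
      (thetaOne.1.mul_left (((k + 1).factorial : ℝ) * 41 ^ n / m))
    · exact mul_nonneg (Real.exp_pos _).le (ih _ (mul_pos hm (zpow_pos hp _))).1
    · exact one n m hm i (ih _ (mul_pos hm (zpow_pos hp _))).2.1
  induction n with
  | zero =>
    intro m hm
    obtain ⟨h1, h2, h3⟩ := T_zero k hm
    exact ⟨h1, h2, h3, key 0 (fun m hm => T_zero k hm) m hm⟩
  | succ n ih =>
    have h0 : ∀ m : ℝ, 0 < m → 0 ≤ T (n + 1) k m ∧
        T (n + 1) k m ≤ ((k + 1).factorial : ℝ) * 41 ^ (n + 1) / m ∧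
        T (n + 1) k m ≤ ((k + 10).factorial : ℝ) * 7800 ^ (n + 1) / m ^ 10 := by
      intro m hm
      have hT : T (n + 1) k m = ∑' i : ℤ, Real.exp (-(q ^ i)) * T n k (m * p ^ (-i)) := rfl
      rw [hT]
      have hsum := (ih m hm).2.2.2
      refine ⟨tsum_nonneg (fun i => mul_nonneg (Real.exp_pos _).le
        (ih _ (mul_pos hm (zpow_pos hp _))).1), ?_, ?_⟩
      · have h1 : ∑' i : ℤ, Real.exp (-(q ^ i)) * T n k (m * p ^ (-i)) ≤
            ∑' i : ℤ, ((k + 1).factorial : ℝ) * 41 ^ n / m * (Real.exp (-(q ^ i)) * p ^ i) :=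
          hsum.tsum_le_tsum (fun i => one n m hm i (ih _ (mul_pos hm (zpow_pos hp _))).2.1)
            (thetaOne.1.mul_left _)
        refine h1.trans ?_
        rw [tsum_mul_left]
        calc ((k + 1).factorial : ℝ) * 41 ^ n / m * ∑' i : ℤ, Real.exp (-(q ^ i)) * p ^ i
            ≤ ((k + 1).factorial : ℝ) * 41 ^ n / m * 41 :=
              mul_le_mul_of_nonneg_left thetaOne.2 (by positivity)
          _ = ((k + 1).factorial : ℝ) * 41 ^ (n + 1) / m := by
              rw [pow_succ]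
              ring
      · have h1 : ∑' i : ℤ, Real.exp (-(q ^ i)) * T n k (m * p ^ (-i)) ≤
            ∑' i : ℤ, ((k + 10).factorial : ℝ) * 7800 ^ n / m ^ 10 *
              (Real.exp (-(q ^ i)) * (q ^ i) ^ 5) :=
          hsum.tsum_le_tsum (fun i => ten n m hm i (ih _ (mul_pos hm (zpow_pos hp _))).2.2.1)
            (thetaTen.1.mul_left _)
        refine h1.trans ?_
        rw [tsum_mul_left]
        calc ((k + 10).factorial : ℝ) * 7800 ^ n / m ^ 10 *
              ∑' i : ℤ, Real.exp (-(q ^ i)) * (q ^ i) ^ 5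
            ≤ ((k + 10).factorial : ℝ) * 7800 ^ n / m ^ 10 * 7800 :=
              mul_le_mul_of_nonneg_left thetaTen.2 (by positivity)
          _ = ((k + 10).factorial : ℝ) * 7800 ^ (n + 1) / m ^ 10 := by
              rw [pow_succ]
              ring
    intro m hm
    obtain ⟨h1, h2, h3⟩ := h0 m hm
    exact ⟨h1, h2, h3, key (n + 1) h0 m hm⟩

theorem T_nonneg (n k : ℕ) {m : ℝ} (hm : 0 < m) : 0 ≤ T n k m := (sg_main k n m hm).1

theorem T_summable (n k : ℕ) {m : ℝ} (hm : 0 < m) :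
    Summable (fun i : ℤ => Real.exp (-(q ^ i)) * T n k (m * p ^ (-i))) :=
  (sg_main k n m hm).2.2.2

theorem T_le_one (n k : ℕ) {m : ℝ} (hm : 0 < m) :
    T n k m ≤ ((k + 1).factorial : ℝ) * 41 ^ n / m := (sg_main k n m hm).2.1

theorem T_le_ten (n k : ℕ) {m : ℝ} (hm : 0 < m) :
    T n k m ≤ ((k + 10).factorial : ℝ) * 7800 ^ n / m ^ 10 := (sg_main k n m hm).2.2.1

end H81.SG
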