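import Pool.Agent.H81.SG.R0
import Pool.Agent.H81.SG.R1
import Pool.Agent.H81.SG.R2
import Pool.Agent.H81.SG.R3
import Pool.Agent.H81.SG.R4
import Pool.Agent.H81.SG.R5
import Pool.Agent.H81.SG.R6
import Pool.Agent.H81.SG.R7
import Pool.Agent.H81.SG.R8
import Pool.Agent.H81.SG.R9
import Pool.Agent.H81.SG.R10
import Pool.Agent.H81.SG.R11
import Pool.Agent.H81.SG.R12
import Pool.Agent.H81.SG.R13
import Pool.Agent.H81.SG.R14

/-!
# The certified tables in the form used by `Pool/Agent/H25/SD/Chk.lean`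
-/

namespace H81.SG

open H46.SB Pool.Agent.H25.SD

/-- rows `k = 0, …, 14` for `n = 2` -/
def LL2 : List (List ℕ) := [r2_0, r2_1, r2_2, r2_3, r2_4, r2_5, r2_6, r2_7,
  r2_8, r2_9, r2_10, r2_11, r2_12, r2_13, r2_14]

/-- rows `k = 0, …, 14` for `n = 3` -/
def LL3 : List (List ℕ) := [r3_0, r3_1, r3_2, r3_3, r3_4, r3_5, r3_6, r3_7,
  r3_8, r3_9, r3_10, r3_11, r3_12, r3_13, r3_14]

/-- rows `k = 0, …, 14` for `n = 4` -/
def LL4 : List (List ℕ) := [r4_0, r4_1, r4_2, r4_3, r4_4, r4_5, r4_6, r4_7,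
  r4_8, r4_9, r4_10, r4_11, r4_12, r4_13, r4_14]

/-- bound of the entries -/
def LmaxN : ℕ := 5444517870735015415413993718908291383296

def leAll (X : ℕ) : List ℕ → Bool
  | [] => true
  | x :: l => Nat.ble x X && leAll X l

theorem leAll_spec {X : ℕ} : ∀ {l : List ℕ}, leAll X l = true → ∀ i, l.getD i 0 ≤ X
  | [], _, i => by simp
  | x :: l, h, i => by
    simp only [leAll, Bool.and_eq_true] at h
    cases i with
    | zero => exact Nat.le_of_ble_eq_true h.1
    | succ i => exact leAll_spec h.2 i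

def leAll2 (X : ℕ) : List (List ℕ) → Bool
  | [] => true
  | l :: L => leAll X l && leAll2 X L

theorem leAll2_spec {X : ℕ} : ∀ {L : List (List ℕ)}, leAll2 X L = true → ∀ r i, (L.getD r []).getD i 0 ≤ X
  | [], _, r, i => by simp
  | l :: L, h, r, i => by
    simp only [leAll2, Bool.and_eq_true] at h
    cases r with
    | zero => exact leAll_spec h.1 i
    | succ r => exact leAll2_spec h.2 r i

theorem tab_of {n Er : ℕ} {LL : List (List ℕ)} (hlen : LL.length = 15)
    (h : ∀ r < 15, RowOK n r Er (LL.getD r [])) (hm : leAll2 LmaxN LL = true) :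
    Tab (Fk n) (2 ^ 72 / hh ^ n) ((21 / 20 : ℝ) ^ (-130 : ℤ)) Er LmaxN LL 255 := by
  have hh0 : 0 < hh := by have := hh_bounds.1; linarith
  have e : ∀ i : ℕ, (21 / 20 : ℝ) ^ (-130 : ℤ) * (21 / 20) ^ i = p ^ ((i : ℤ) - 130) := by
    intro i
    unfold p
    have e2 : (i : ℤ) - 130 = -130 + (i : ℤ) := by ring
    rw [e2, zpow_add₀ (by norm_num), zpow_natCast]
  refine ⟨by positivity, by positivity, ?_, ?_, ?_, fun r _ i _ => leAll2_spec hm r i⟩
  · intro r hr
    exact (h r (by omega)).1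
  · intro r hr i hi
    rw [e]
    exact ((h r (by omega)).2 i hi).1
  · intro r hr i hi
    rw [e]
    exact ((h r (by omega)).2 i hi).2

theorem tab2 : Tab (Fk 2) (2 ^ 72 / hh ^ 2) ((21 / 20 : ℝ) ^ (-130 : ℤ)) 1032 LmaxN LL2 255 := by
  refine tab_of rfl ?_ (by decide +kernel)
  intro r hr
  interval_cases r
  · exact row_0.1
  · exact row_1.1
  · exact row_2.1
  · exact row_3.1
  · exact row_4.1
  · exact row_5.1
  · exact row_6.1
  · exact row_7.1
  · exact row_8.1
  · exact row_9.1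
  · exact row_10.1
  · exact row_11.1
  · exact row_12.1
  · exact row_13.1
  · exact row_14.1

theorem tab3 : Tab (Fk 3) (2 ^ 72 / hh ^ 3) ((21 / 20 : ℝ) ^ (-130 : ℤ)) 65544 LmaxN LL3 255 := by
  refine tab_of rfl ?_ (by decide +kernel)
  intro r hr
  interval_cases r
  · exact row_0.2.1
  · exact row_1.2.1
  · exact row_2.2.1
  · exact row_3.2.1
  · exact row_4.2.1
  · exact row_5.2.1
  · exact row_6.2.1
  · exact row_7.2.1
  · exact row_8.2.1
  · exact row_9.2.1
  · exact row_10.2.1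
  · exact row_11.2.1
  · exact row_12.2.1
  · exact row_13.2.1
  · exact row_14.2.1

theorem tab4 : Tab (Fk 4) (2 ^ 72 / hh ^ 4) ((21 / 20 : ℝ) ^ (-130 : ℤ)) 4194312 LmaxN LL4 255 := by
  refine tab_of rfl ?_ (by decide +kernel)
  intro r hr
  interval_cases r
  · exact row_0.2.2
  · exact row_1.2.2
  · exact row_2.2.2
  · exact row_3.2.2
  · exact row_4.2.2
  · exact row_5.2.2
  · exact row_6.2.2
  · exact row_7.2.2
  · exact row_8.2.2
  · exact row_9.2.2
  · exact row_10.2.2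
  · exact row_11.2.2
  · exact row_12.2.2
  · exact row_13.2.2
  · exact row_14.2.2

end H81.SG
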