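import Pool.Agent.H81.SG.Defs
import Pool.Agent.H81.L2.Shift2

/-!
# Module TRAP1: the trapezoid rule in one variable

Adapt `Pool/Agent/H81/L2/Shift2.lean` (shift of the contour by `θ = 29π/60`; its private lemmas can be
copied with new names) and `Pool/Agent/H81/L2/Trap1.lean` (Poisson summation, `q = 121/100` there).
Now `f(t) = exp (-e^t) x^k exp (-x)`, `x = Y e^(-t/2)`, entire in `t`; on the line `t + iθ`:
`|f(t + iθ)| = exp (-e^t cos θ) x^k exp (-x cos (θ/2))`, `cos θ > 1/20`, `cos (θ/2) ≥ cos (π/4) = √2/2 ≥ 2/3`;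
`x^k exp (-(2/3) x) ≤ (k+1)! (3/2)^(k+1) / x` (`Real.pow_div_factorial_le_exp`) and
`∫ exp (-e^t/20) e^(t/2) dt = √π √20 ≤ 7.93`; intermediate lines `0 ≤ b ≤ θ` have the same majorant.
So the Fourier transform at `ξ` is at most `exp (-2π|ξ|θ) (k+1)! (3/2)^(k+1) 7.93/Y`; the sum over
`ξ = j/hh`, `j ≠ 0`, is at most `2 E/(1-E)` times this, `E = exp (-2πθ/hh) ≤ 2^(-139)`
(`(29/30) π² / 0.0976 ≥ 97.7`, `139 log 2 ≤ 96.4`, `hh < 0.0976`: `log (441/400) = 0.0975803…`), and
`2 · 7.93 · 2^(-138) ≤ 2^(-134)`.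
-/

namespace H81.SG

open MeasureTheory H46.SB Filter Topology FourierTransform

/-! ### the function and its majorant -/

noncomputable def u1_ff (k : ℕ) (Y t : ℝ) : ℝ :=
  Real.exp (-Real.exp t) * ((Y * Real.exp (-t / 2)) ^ k * Real.exp (-(Y * Real.exp (-t / 2))))

noncomputable def u1_C (k : ℕ) : ℝ := ((k + 1).factorial : ℝ) * (3 / 2) ^ (k + 1)

noncomputable def u1_m (t : ℝ) : ℝ := Real.exp (-(1 / 20 * Real.exp t)) * Real.exp (t / 2)

private theorem u1_C_pos (k : ℕ) : 0 < u1_C k := by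
  unfold u1_C
  positivity

private theorem u1_m_pos (t : ℝ) : 0 < u1_m t := by unfold u1_m; positivity

private theorem u1_image : Real.exp '' Set.univ = Set.Ioi 0 := by
  rw [Set.image_univ, Real.range_exp]

private theorem u1_maj_int {c : ℝ} (hc : 0 < c) :
    Integrable (fun t : ℝ => Real.exp (-(c * Real.exp t)) * Real.exp (t / 2)) ∧
    ∫ t : ℝ, Real.exp (-(c * Real.exp t)) * Real.exp (t / 2) = √Real.pi / √c := by
  have hder : ∀ x ∈ (Set.univ : Set ℝ), HasDerivWithinAt Real.exp (Real.exp x) Set.univ x :=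
    fun x _ => (Real.hasDerivAt_exp x).hasDerivWithinAt
  have hinj : Set.InjOn Real.exp Set.univ := Real.exp_injective.injOn
  have key : ∀ t : ℝ, |Real.exp t| • ((fun x : ℝ => x ^ ((1 / 2 : ℝ) - 1) *
      Real.exp (-(c * x))) (Real.exp t)) = Real.exp (-(c * Real.exp t)) * Real.exp (t / 2) := by
    intro t
    rw [abs_of_pos (Real.exp_pos t), smul_eq_mul]
    dsimp only
    rw [← Real.exp_mul, ← mul_assoc, ← Real.exp_add, mul_comm]
    congr 2
    ring
  constructor
  · have h := (integrableOn_image_iff_integrableOn_abs_deriv_smul MeasurableSet.univ hder hinj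
      (fun x : ℝ => x ^ ((1 / 2 : ℝ) - 1) * Real.exp (-(c * x)))).1 ?_
    · rw [integrableOn_univ] at h
      exact h.congr (Eventually.of_forall key)
    · rw [u1_image]
      have := integrableOn_rpow_mul_exp_neg_mul_rpow (s := (1 / 2 : ℝ) - 1) (p := 1) (b := c)
        (by norm_num) one_pos hc
      refine this.congr_fun (fun x _ => ?_) measurableSet_Ioi
      simp only [Real.rpow_one, neg_mul]
  · have h := integral_image_eq_integral_abs_deriv_smul MeasurableSet.univ hder hinj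
      (fun x : ℝ => x ^ ((1 / 2 : ℝ) - 1) * Real.exp (-(c * x)))
    rw [u1_image, Real.integral_rpow_mul_exp_neg_mul_Ioi (by norm_num) hc, setIntegral_univ,
      Real.Gamma_one_half_eq] at h
    rw [← integral_congr_ae (Eventually.of_forall key)]
    rw [← h, ← Real.sqrt_eq_rpow, Real.sqrt_div zero_le_one, Real.sqrt_one]
    ring

private theorem u1_m_int : Integrable u1_m := (u1_maj_int (by norm_num)).1

private theorem u1_m_int_le : ∫ t, u1_m t ≤ 7.93 := by
  have h1 : ∫ t, u1_m t = √Real.pi / √(1 / 20) := (u1_maj_int (by norm_num)).2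
  rw [h1, ← Real.sqrt_div Real.pi_pos.le]
  rw [Real.sqrt_le_left (by norm_num)]
  have := Real.pi_lt_d4
  have h2 : Real.pi / (1 / 20) = Real.pi * 20 := by ring
  rw [h2]
  norm_num at this ⊢
  linarith

/-- `u1_m t ≤ 20 exp (-|t|/2)` -/
private theorem u1_m_le (t : ℝ) : u1_m t ≤ 20 * Real.exp (-(|t| / 2)) := by
  unfold u1_m
  rcases le_total 0 t with h | h
  · rw [abs_of_nonneg h]
    have h1 : Real.exp (-(1 / 20 * Real.exp t)) ≤ 20 * Real.exp (-t) := by
      have h2 := Real.add_one_le_exp (1 / 20 * Real.exp t)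
      have h3 : 0 < 1 / 20 * Real.exp t := by positivity
      rw [Real.exp_neg, Real.exp_neg]
      have h4 : 20 * (Real.exp t)⁻¹ = (1 / 20 * Real.exp t)⁻¹ := by
        have := Real.exp_pos t
        field_simp
      rw [h4]
      exact inv_anti₀ h3 (by linarith)
    calc Real.exp (-(1 / 20 * Real.exp t)) * Real.exp (t / 2)
        ≤ 20 * Real.exp (-t) * Real.exp (t / 2) :=
          mul_le_mul_of_nonneg_right h1 (Real.exp_pos _).le
      _ = 20 * Real.exp (-(t / 2)) := by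
          rw [mul_assoc, ← Real.exp_add]
          congr 2
          ring
  · rw [abs_of_nonpos h]
    have h1 : Real.exp (-(1 / 20 * Real.exp t)) ≤ 20 := by
      have : Real.exp (-(1 / 20 * Real.exp t)) ≤ 1 := by
        rw [Real.exp_le_one_iff]
        have := Real.exp_pos t
        linarith
      linarith
    have h2 : -(-t / 2) = t / 2 := by ring
    rw [h2]
    exact mul_le_mul_of_nonneg_right h1 (Real.exp_pos _).le

private theorem u1_pow_exp_le (k : ℕ) {x : ℝ} (hx : 0 < x) :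
    x ^ k * Real.exp (-(2 / 3 * x)) ≤ u1_C k / x := by
  have h1 := Real.pow_div_factorial_le_exp (2 / 3 * x) (by positivity) (k + 1)
  rw [le_div_iff₀ hx, Real.exp_neg, ← div_eq_mul_inv, div_mul_eq_mul_div, ← pow_succ,
    div_le_iff₀ (Real.exp_pos _)]
  rw [div_le_iff₀ (by positivity)] at h1
  have h2 : x ^ (k + 1) = (3 / 2) ^ (k + 1) * (2 / 3 * x) ^ (k + 1) := by
    rw [← mul_pow]
    congr 1
    ring
  rw [h2]
  unfold u1_C
  calc (3 / 2 : ℝ) ^ (k + 1) * (2 / 3 * x) ^ (k + 1)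
      ≤ (3 / 2 : ℝ) ^ (k + 1) * (Real.exp (2 / 3 * x) * ((k + 1).factorial : ℝ)) :=
        mul_le_mul_of_nonneg_left h1 (by positivity)
    _ = _ := by ring

/-- the majorant on the lines -/
private theorem u1_line_le (k : ℕ) {Y c c' : ℝ} (hY : 0 < Y) (hc : 1 / 20 ≤ c) (hc' : 2 / 3 ≤ c')
    (t : ℝ) : Real.exp (-(c * Real.exp t)) * ((Y * Real.exp (-t / 2)) ^ k *
      Real.exp (-(c' * (Y * Real.exp (-t / 2))))) ≤ u1_C k / Y * u1_m t := by
  set x : ℝ := Y * Real.exp (-t / 2) with hx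
  have hx0 : 0 < x := by positivity
  have h1 : Real.exp (-(c * Real.exp t)) ≤ Real.exp (-(1 / 20 * Real.exp t)) := by
    apply Real.exp_le_exp.2
    have := mul_le_mul_of_nonneg_right hc (Real.exp_pos t).le
    linarith
  have h2 : x ^ k * Real.exp (-(c' * x)) ≤ u1_C k / x := by
    refine le_trans (mul_le_mul_of_nonneg_left ?_ (by positivity)) (u1_pow_exp_le k hx0)
    apply Real.exp_le_exp.2
    have := mul_le_mul_of_nonneg_right hc' hx0.le
    linarith
  have h3 : u1_C k / x = u1_C k / Y * Real.exp (t / 2) := by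
    have h4 : Real.exp (t / 2) * Real.exp (-t / 2) = 1 := by
      rw [← Real.exp_add]
      have : t / 2 + -t / 2 = 0 := by ring
      rw [this, Real.exp_zero]
    rw [hx, div_eq_iff (by positivity)]
    calc u1_C k = u1_C k / Y * Y * 1 := by field_simp
      _ = u1_C k / Y * Y * (Real.exp (t / 2) * Real.exp (-t / 2)) := by rw [h4]
      _ = _ := by ring
  calc Real.exp (-(c * Real.exp t)) * (x ^ k * Real.exp (-(c' * x)))
      ≤ Real.exp (-(1 / 20 * Real.exp t)) * (u1_C k / x) :=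
        mul_le_mul h1 h2 (by positivity) (Real.exp_pos _).le
    _ = _ := by rw [h3]; unfold u1_m; ring

private theorem u1_tendsto (K : ℝ) :
    Tendsto (fun t => K * u1_m t) atTop (𝓝 0) ∧ Tendsto (fun t => K * u1_m t) atBot (𝓝 0) := by
  have h0 : ∀ l : Filter ℝ, Tendsto (fun t : ℝ => |t|) l atTop →
      Tendsto (fun t => K * u1_m t) l (𝓝 0) := by
    intro l hl
    have h1 : Tendsto (fun t : ℝ => |t| / 2) l atTop := hl.atTop_div_const (by norm_num)
    have h2 : Tendsto (fun t : ℝ => Real.exp (-(|t| / 2))) l (𝓝 0) :=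
      Real.tendsto_exp_neg_atTop_nhds_zero.comp h1
    have h3 : Tendsto u1_m l (𝓝 0) := by
      refine squeeze_zero (fun t => (u1_m_pos t).le) u1_m_le ?_
      simpa using h2.const_mul 20
    simpa using h3.const_mul K
  exact ⟨h0 _ tendsto_abs_atTop_atTop, h0 _ tendsto_abs_atBot_atTop⟩

/-- shift of the line of integration -/
private theorem u1_shift (f : ℂ → ℂ) (hf : Differentiable ℂ f) (b : ℝ)
    (h0 : Integrable (fun t : ℝ => f t)) (hb : Integrable (fun t : ℝ => f (t + b * Complex.I)))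
    (hv : Tendsto (fun T : ℝ => ∫ y in (0 : ℝ)..b, f (T + y * Complex.I)) atTop (𝓝 0))
    (hv' : Tendsto (fun T : ℝ => ∫ y in (0 : ℝ)..b, f (T + y * Complex.I)) atBot (𝓝 0)) :
    ∫ t : ℝ, f t = ∫ t : ℝ, f (t + b * Complex.I) := by
  have h1 := intervalIntegral_tendsto_integral h0 tendsto_neg_atTop_atBot tendsto_id
  have h2 := intervalIntegral_tendsto_integral hb tendsto_neg_atTop_atBot tendsto_id
  have h3 : Tendsto (fun T : ℝ => Complex.I • (∫ y in (0 : ℝ)..b, f (T + y * Complex.I)) -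
      Complex.I • (∫ y in (0 : ℝ)..b, f ((-T : ℝ) + y * Complex.I))) atTop (𝓝 0) := by
    have h4 := (hv.const_smul Complex.I).sub
      ((hv'.comp tendsto_neg_atTop_atBot).const_smul Complex.I)
    simpa using h4
  have h5 : ∀ T : ℝ, (∫ x in (-T)..T, f x) - (∫ x in (-T)..T, f (x + b * Complex.I)) +
      (Complex.I • (∫ y in (0 : ℝ)..b, f (T + y * Complex.I)) -
      Complex.I • (∫ y in (0 : ℝ)..b, f ((-T : ℝ) + y * Complex.I))) = 0 := by
    intro T
    have := Complex.integral_boundary_rect_eq_zero_of_differentiableOn f (-T : ℝ)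
      (T + b * Complex.I) hf.differentiableOn
    simp only [Complex.ofReal_re, Complex.ofReal_im, Complex.add_re, Complex.add_im,
      Complex.mul_re, Complex.mul_im, Complex.I_re, Complex.I_im, mul_zero, mul_one, sub_zero,
      add_zero, zero_add, Complex.ofReal_zero, zero_mul] at this
    rw [← add_sub_assoc]
    exact this
  have h6 := (h1.sub h2).add h3
  have h7 : Tendsto (fun T : ℝ => (∫ x in (-T)..T, f x) -
      (∫ x in (-T)..T, f (x + b * Complex.I)) +
      (Complex.I • (∫ y in (0 : ℝ)..b, f (T + y * Complex.I)) -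
      Complex.I • (∫ y in (0 : ℝ)..b, f ((-T : ℝ) + y * Complex.I)))) atTop (𝓝 0) := by
    simp only [h5]
    exact tendsto_const_nhds
  have h8 := tendsto_nhds_unique h6 h7
  rw [add_zero, sub_eq_zero] at h8
  exact h8

noncomputable def u1_F (k : ℕ) (Y ξ : ℝ) (z : ℂ) : ℂ :=
  Complex.exp (-(2 * Real.pi * ξ : ℝ) * z * Complex.I) * (Complex.exp (-Complex.exp z) *
    (((Y : ℂ) * Complex.exp (-z / 2)) ^ k * Complex.exp (-((Y : ℂ) * Complex.exp (-z / 2)))))

private theorem u1_F_diff (k : ℕ) (Y ξ : ℝ) : Differentiable ℂ (u1_F k Y ξ) := by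
  unfold u1_F
  fun_prop

private theorem u1_F_norm (k : ℕ) {Y : ℝ} (hY : 0 < Y) (ξ t b : ℝ) :
    ‖u1_F k Y ξ (t + b * Complex.I)‖ =
    Real.exp (2 * Real.pi * (ξ * b)) * (Real.exp (-(Real.cos b * Real.exp t)) *
      ((Y * Real.exp (-t / 2)) ^ k *
      Real.exp (-(Real.cos (b / 2) * (Y * Real.exp (-t / 2)))))) := by
  unfold u1_F
  rw [norm_mul, norm_mul, norm_mul, norm_pow, norm_mul, Complex.norm_exp, Complex.norm_exp,
    Complex.norm_exp, Complex.norm_exp, Complex.norm_real, Real.norm_of_nonneg hY.le]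
  have h1 : (Complex.exp (t + b * Complex.I)).re = Real.exp t * Real.cos b := by
    rw [Complex.exp_re]; simp
  have h2 : (-(t + b * Complex.I) / 2).re = -t / 2 := by simp
  have h2' : (-(t + b * Complex.I) / 2).im = -(b / 2) := by
    simp
    ring
  have h3 : (Complex.exp (-(t + b * Complex.I) / 2)).re =
      Real.exp (-t / 2) * Real.cos (b / 2) := by
    rw [Complex.exp_re, h2, h2', Real.cos_neg]
  rw [h2]
  congr 1
  · congr 1
    simp
    ring
  · congr 1
    · rw [Complex.neg_re, h1]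
      congr 1
      ring
    · congr 2
      rw [Complex.neg_re, Complex.re_ofReal_mul, h3]
      ring

private theorem u1_F_eq (k : ℕ) (Y ξ t : ℝ) : u1_F k Y ξ t =
    Complex.exp (-(2 * Real.pi * ξ * t : ℝ) * Complex.I) * (u1_ff k Y t : ℂ) := by
  unfold u1_F u1_ff
  push_cast
  congr 2
  ring

private theorem u1_cos_pos : (1 / 20 : ℝ) ≤ Real.cos (29 * Real.pi / 60) := by
  have h1 : Real.cos (29 * Real.pi / 60) = Real.sin (Real.pi / 60) := by
    rw [← Real.sin_pi_div_two_sub]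
    congr 1
    ring
  have h2 := Real.pi_gt_d4
  have h3 := Real.pi_lt_d4
  have h4 := Real.sin_gt_sub_cube (x := Real.pi / 60) (by linarith)
  rw [h1]
  have h5 : (Real.pi / 60) ^ 3 ≤ (0.06 : ℝ) ^ 3 :=
    pow_le_pow_left₀ (by linarith) (by linarith) 3
  norm_num at h5 ⊢
  linarith

private theorem u1_cos_half {b : ℝ} (hb : |b| ≤ 29 * Real.pi / 60) : 2 / 3 ≤ Real.cos (b / 2) := by
  have h1 : Real.cos (Real.pi / 4) ≤ Real.cos (b / 2) := by
    rw [← Real.cos_abs (b / 2)]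
    apply Real.cos_le_cos_of_nonneg_of_le_pi (abs_nonneg _)
    · have := Real.pi_pos
      linarith
    · rw [abs_div, abs_two]
      have := Real.pi_pos
      linarith
  refine le_trans ?_ h1
  rw [Real.cos_pi_div_four]
  have h2 : (4 / 3 : ℝ) ≤ √2 := by
    apply Real.le_sqrt_of_sq_le
    norm_num
  linarith

theorem u1_fourier (k : ℕ) {Y : ℝ} (hY : 0 < Y) (ξ : ℝ) :
    ‖∫ t : ℝ, Complex.exp (-(2 * Real.pi * ξ * t : ℝ) * Complex.I) * (u1_ff k Y t : ℂ)‖ ≤
      Real.exp (-(2 * Real.pi * (29 * Real.pi / 60) * |ξ|)) * (7.93 * (u1_C k / Y)) := by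
  set a : ℝ := 29 * Real.pi / 60 with ha
  have hpi := Real.pi_pos
  have ha0 : 0 < a := by positivity
  have hapi : a ≤ Real.pi := by rw [ha]; linarith
  have hca : 1 / 20 ≤ Real.cos a := u1_cos_pos
  have hCY : 0 < u1_C k / Y := div_pos (u1_C_pos k) hY
  -- choice of the shift
  obtain ⟨b, hb, hbξ⟩ : ∃ b : ℝ, |b| = a ∧ ξ * b = -(a * |ξ|) := by
    rcases le_total 0 ξ with h | h
    · refine ⟨-a, by rw [abs_neg, abs_of_pos ha0], ?_⟩
      rw [abs_of_nonneg h]; ring
    · refine ⟨a, abs_of_pos ha0, ?_⟩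
      rw [abs_of_nonpos h]; ring
  have hcos : ∀ y : ℝ, |y| ≤ a → 1 / 20 ≤ Real.cos y := by
    intro y hy
    rw [← Real.cos_abs y]
    exact hca.trans (Real.cos_le_cos_of_nonneg_of_le_pi (abs_nonneg y) hapi hy)
  have hFle : ∀ y : ℝ, |y| ≤ a → ∀ t : ℝ, ‖u1_F k Y ξ (t + y * Complex.I)‖ ≤
      Real.exp (2 * Real.pi * (ξ * y)) * (u1_C k / Y * u1_m t) := by
    intro y hy t
    rw [u1_F_norm k hY]
    exact mul_le_mul_of_nonneg_left (u1_line_le k hY (hcos y hy) (u1_cos_half hy) t)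
      (Real.exp_pos _).le
  have hcont : Continuous (u1_F k Y ξ) := (u1_F_diff k Y ξ).continuous
  have hi : ∀ y : ℝ, |y| ≤ a → Integrable (fun t : ℝ => u1_F k Y ξ (t + y * Complex.I)) := by
    intro y hy
    refine ((u1_m_int.const_mul (u1_C k / Y)).const_mul
      (Real.exp (2 * Real.pi * (ξ * y)))).mono' ?_ ?_
    · exact (hcont.comp (by fun_prop)).aestronglyMeasurable
    · exact Eventually.of_forall fun t => hFle y hy t
  have hvb : ∀ T : ℝ, ‖∫ y in (0 : ℝ)..b, u1_F k Y ξ (T + y * Complex.I)‖ ≤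
      (Real.exp (2 * Real.pi * (|ξ| * a)) * a) * (u1_C k / Y) * u1_m T := by
    intro T
    have := intervalIntegral.norm_integral_le_of_norm_le_const
      (C := Real.exp (2 * Real.pi * (|ξ| * a)) * (u1_C k / Y * u1_m T)) (a := 0) (b := b)
      (f := fun y : ℝ => u1_F k Y ξ (T + y * Complex.I)) ?_
    · rw [sub_zero, hb] at this
      refine this.trans (le_of_eq ?_)
      ring
    · intro y hy
      have hyb : |y| ≤ a := by
        rw [← hb]
        rw [Set.mem_uIoc] at hy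
        rcases hy with hy | hy
        · rw [abs_of_pos hy.1, abs_of_pos (hy.1.trans_le hy.2)]
          exact hy.2
        · rw [abs_of_nonpos hy.2, abs_of_neg (hy.1.trans_le hy.2)]
          linarith [hy.1]
      refine (hFle y hyb T).trans ?_
      have hm := u1_m_pos T
      apply mul_le_mul_of_nonneg_right _ (by positivity)
      apply Real.exp_le_exp.2
      have h1 : ξ * y ≤ |ξ| * a := by
        calc ξ * y ≤ |ξ * y| := le_abs_self _
          _ = |ξ| * |y| := abs_mul _ _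
          _ ≤ |ξ| * a := mul_le_mul_of_nonneg_left hyb (abs_nonneg _)
      nlinarith
  have hshift := u1_shift (u1_F k Y ξ) (u1_F_diff k Y ξ) b
    (by simpa using hi 0 (by rw [abs_zero]; exact ha0.le)) (hi b hb.le)
    (squeeze_zero_norm hvb (u1_tendsto _).1)
    (squeeze_zero_norm hvb (u1_tendsto _).2)
  have e : ∫ t : ℝ, Complex.exp (-(2 * Real.pi * ξ * t : ℝ) * Complex.I) * (u1_ff k Y t : ℂ) =
      ∫ t : ℝ, u1_F k Y ξ (t + b * Complex.I) := by
    rw [← hshift]
    apply integral_congr_ae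
    exact Eventually.of_forall fun t => (u1_F_eq k Y ξ t).symm
  rw [e]
  calc ‖∫ t : ℝ, u1_F k Y ξ (t + b * Complex.I)‖
      ≤ ∫ t : ℝ, ‖u1_F k Y ξ (t + b * Complex.I)‖ := norm_integral_le_integral_norm _
    _ ≤ ∫ t : ℝ, Real.exp (2 * Real.pi * (ξ * b)) * (u1_C k / Y * u1_m t) :=
        integral_mono (hi b hb.le).norm
          ((u1_m_int.const_mul (u1_C k / Y)).const_mul _) (fun t => hFle b hb.le t)
    _ = Real.exp (2 * Real.pi * (ξ * b)) * (u1_C k / Y * ∫ t : ℝ, u1_m t) := by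
        rw [integral_const_mul, integral_const_mul]
    _ ≤ Real.exp (2 * Real.pi * (ξ * b)) * (u1_C k / Y * 7.93) :=
        mul_le_mul_of_nonneg_left (mul_le_mul_of_nonneg_left u1_m_int_le hCY.le)
          (Real.exp_pos _).le
    _ = _ := by
        rw [hbξ, mul_comm (u1_C k / Y)]
        congr 2
        ring

theorem hh_bounds : 0.0975 < hh ∧ hh < 0.0976 := by
  have h1 := Real.sum_range_le_log_div (x := 41 / 841) (by norm_num) (by norm_num) 3
  have h2 := Real.log_div_le_sum_range_add (x := 41 / 841) (by norm_num) (by norm_num) 3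
  have h3 : (1 + 41 / 841) / (1 - 41 / 841) = (441 / 400 : ℝ) := by norm_num
  rw [h3] at h1 h2
  simp only [Finset.sum_range_succ, Finset.sum_range_zero] at h1 h2
  unfold hh
  constructor
  · refine lt_of_lt_of_le ?_ ((mul_le_mul_of_nonneg_left h1 (by norm_num : (0 : ℝ) ≤ 2)).trans_eq
      (by ring))
    norm_num
  · refine lt_of_le_of_lt (le_of_eq_of_le (by ring)
      (mul_le_mul_of_nonneg_left h2 (by norm_num : (0 : ℝ) ≤ 2))) ?_
    norm_num

theorem u1_hh_pos : 0 < hh := by have := hh_bounds.1; linarith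

private theorem u1_ff_nonneg (k : ℕ) {Y : ℝ} (hY : 0 < Y) (t : ℝ) : 0 ≤ u1_ff k Y t := by
  unfold u1_ff
  positivity

private theorem u1_ff_le (k : ℕ) {Y : ℝ} (hY : 0 < Y) (t : ℝ) :
    u1_ff k Y t ≤ u1_C k / Y * u1_m t := by
  have h := u1_line_le k (c := 1) (c' := 1) hY (by norm_num) (by norm_num) t
  rw [one_mul, one_mul] at h
  exact h

private theorem u1_ff_decay (k : ℕ) {Y : ℝ} (hY : 0 < Y) (t : ℝ) (ht : t ≠ 0) :
    u1_ff k Y t ≤ (u1_C k / Y * 160) / t ^ 2 := by
  have hCY : 0 < u1_C k / Y := div_pos (u1_C_pos k) hY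
  have ht2 : 0 < t ^ 2 := by positivity
  refine (u1_ff_le k hY t).trans ?_
  rw [mul_div_assoc]
  apply mul_le_mul_of_nonneg_left _ hCY.le
  refine (u1_m_le t).trans ?_
  have h1 := Real.quadratic_le_exp_of_nonneg (x := |t| / 2) (by positivity)
  have h2 : (|t| / 2) ^ 2 / 2 ≤ Real.exp (|t| / 2) := by
    have : 0 ≤ |t| / 2 := by positivity
    linarith
  have h3 : (|t| / 2) ^ 2 / 2 = t ^ 2 / 8 := by
    rw [div_pow, sq_abs]; ring
  rw [h3] at h2
  rw [Real.exp_neg, ← div_eq_mul_inv]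
  have h4 : 160 / t ^ 2 = 20 / (t ^ 2 / 8) := by
    field_simp
    norm_num
  rw [h4]
  exact div_le_div_of_nonneg_left (by norm_num) (by positivity) h2

/-- the scaled function -/
noncomputable def u1_g (k : ℕ) (Y : ℝ) (x : ℝ) : ℂ := (u1_ff k Y (hh * x) : ℂ)

private theorem u1_g_cont (k : ℕ) (Y : ℝ) : Continuous (u1_g k Y) := by
  unfold u1_g u1_ff
  fun_prop

private theorem u1_g_bigO (k : ℕ) {Y : ℝ} (hY : 0 < Y) :
    Asymptotics.IsBigO (cocompact ℝ) (u1_g k Y) fun x : ℝ => |x| ^ (-(2 : ℝ)) := by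
  refine Asymptotics.IsBigO.of_bound ((u1_C k / Y * 160) / hh ^ 2) ?_
  have h0 : ({0}ᶜ : Set ℝ) ∈ cocompact ℝ := isCompact_singleton.compl_mem_cocompact
  filter_upwards [h0] with x hx
  have hx : x ≠ 0 := hx
  have hh0 := u1_hh_pos
  have h1 := u1_ff_decay k hY (hh * x) (mul_ne_zero hh0.ne' hx)
  have h2 : 0 ≤ u1_ff k Y (hh * x) := u1_ff_nonneg k hY _
  unfold u1_g
  rw [Complex.norm_real, Real.norm_of_nonneg h2, Real.norm_of_nonneg (by positivity),
    Real.rpow_neg (abs_nonneg x), Real.rpow_two, sq_abs]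
  refine h1.trans (le_of_eq ?_)
  field_simp

private theorem u1_q_zpow (k : ℤ) : q ^ k = Real.exp (hh * k) := by
  have hq : q = Real.exp hh := by
    unfold q hh
    rw [Real.exp_log (by norm_num)]
  rw [hq, Real.exp_mul, Real.rpow_intCast]

private theorem u1_p_zpow (k : ℤ) : p ^ (-k) = Real.exp (-(hh * k) / 2) := by
  have hp : p = Real.exp (hh / 2) := by
    have h1 : p ^ 2 = Real.exp (hh / 2) ^ 2 := by
      rw [← Real.exp_nat_mul]
      have h2 : ((2 : ℕ) : ℝ) * (hh / 2) = hh := by push_cast; ring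
      rw [h2]
      unfold p hh
      rw [Real.exp_log (by norm_num)]
      norm_num
    exact (pow_left_inj₀ (by unfold p; norm_num) (Real.exp_pos _).le (by norm_num)).1 h1
  have h3 : -(hh * k) / 2 = hh / 2 * ((-k : ℤ) : ℝ) := by push_cast; ring
  rw [h3, Real.exp_mul, Real.rpow_intCast, ← hp]

private theorem u1_ff_q (k : ℕ) (Y : ℝ) (i : ℤ) : Real.exp (-(q ^ i)) *
      ((Y * p ^ (-i)) ^ k * Real.exp (-(Y * p ^ (-i)))) = u1_ff k Y (hh * i) := by
  unfold u1_ff
  rw [u1_q_zpow, u1_p_zpow]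

private theorem u1_g_summable (k : ℕ) {Y : ℝ} (hY : 0 < Y) :
    Summable (fun i : ℤ => u1_g k Y i) :=
  summable_of_isBigO (Real.summable_abs_int_rpow (by norm_num : (1 : ℝ) < 2))
    ((u1_g_bigO k hY).comp_tendsto Int.tendsto_coe_cofinite)

/-- the Fourier integral -/
noncomputable def u1_G (k : ℕ) (Y ξ : ℝ) : ℂ :=
  ∫ t : ℝ, Complex.exp (-(2 * Real.pi * ξ * t : ℝ) * Complex.I) * (u1_ff k Y t : ℂ)

private theorem u1_g_fourier (k : ℕ) (Y : ℝ) (n : ℤ) :
    𝓕 (u1_g k Y) (n : ℝ) = (hh : ℂ)⁻¹ * u1_G k Y (n / hh) := by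
  rw [Real.fourier_real_eq_integral_exp_smul]
  have hh0 := u1_hh_pos
  have h1 := Measure.integral_comp_mul_left (fun t : ℝ =>
    Complex.exp (-(2 * Real.pi * (n / hh) * t : ℝ) * Complex.I) * (u1_ff k Y t : ℂ)) hh
  unfold u1_G
  rw [abs_of_pos (by positivity : (0 : ℝ) < hh⁻¹)] at h1
  rw [Complex.real_smul, Complex.ofReal_inv] at h1
  rw [← h1]
  congr 1
  ext v
  rw [smul_eq_mul]
  unfold u1_g
  congr 2
  rw [← Complex.ofReal_neg]
  congr 2
  field_simp

/-- the decay rate -/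
noncomputable def u1_E : ℝ := Real.exp (-(2 * Real.pi * (29 * Real.pi / 60) / hh))

private theorem u1_E_pos : 0 < u1_E := Real.exp_pos _

private theorem u1_E_le : u1_E ≤ 1 / 2 ^ 139 := by
  have h1 : (1 : ℝ) / 2 ^ 139 = Real.exp (-(139 * Real.log 2)) := by
    rw [Real.exp_neg, show 139 * Real.log 2 = ((139 : ℕ) : ℝ) * Real.log 2 by norm_num,
      Real.exp_nat_mul, Real.exp_log (by norm_num)]
    norm_num
  rw [h1]
  unfold u1_E
  apply Real.exp_le_exp.2
  apply neg_le_neg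
  rw [le_div_iff₀ u1_hh_pos]
  have h2 := hh_bounds.2
  have h3 := Real.log_two_lt_d9
  have h4 := Real.pi_gt_d4
  have h5 : 0 < Real.log 2 := Real.log_pos (by norm_num)
  have h6 := u1_hh_pos
  have h7 : 139 * Real.log 2 * hh ≤ 139 * 0.6931471808 * 0.0976 := by
    apply mul_le_mul _ h2.le h6.le (by norm_num)
    linarith
  have h8 : (3.1415 : ℝ) * 3.1415 ≤ Real.pi * Real.pi :=
    mul_le_mul h4.le h4.le (by norm_num) Real.pi_pos.le
  have h9 : 2 * Real.pi * (29 * Real.pi / 60) = 29 / 30 * (Real.pi * Real.pi) := by ring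
  rw [h9]
  refine h7.trans ?_
  refine le_trans ?_ (mul_le_mul_of_nonneg_left h8 (by norm_num))
  norm_num

private theorem u1_G_le (k : ℕ) {Y : ℝ} (hY : 0 < Y) (n : ℤ) :
    ‖u1_G k Y (n / hh)‖ ≤ 7.93 * (u1_C k / Y) * u1_E ^ n.natAbs := by
  have h := u1_fourier k hY (n / hh)
  unfold u1_G
  refine h.trans (le_of_eq ?_)
  rw [mul_comm]
  congr 1
  unfold u1_E
  rw [← Real.exp_nat_mul]
  congr 1
  rw [abs_div, abs_of_pos u1_hh_pos, Nat.cast_natAbs]
  push_cast
  ring

theorem trap1 (k : ℕ) {Y : ℝ} (hY : 0 < Y) :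
    Summable (fun i : ℤ => Real.exp (-(q ^ i)) *
      ((Y * p ^ (-i)) ^ k * Real.exp (-(Y * p ^ (-i))))) ∧
    |hh * ∑' i : ℤ, Real.exp (-(q ^ i)) * ((Y * p ^ (-i)) ^ k * Real.exp (-(Y * p ^ (-i)))) -
      ∫ t : ℝ, Real.exp (-Real.exp t) *
        ((Y * Real.exp (-t / 2)) ^ k * Real.exp (-(Y * Real.exp (-t / 2))))| ≤ A k / Y := by
  have hsum : Summable (fun i : ℤ => u1_ff k Y (hh * i)) := by
    have h := (u1_g_summable k hY).norm
    refine h.congr (fun i => ?_)
    unfold u1_g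
    rw [Complex.norm_real, Real.norm_of_nonneg]
    exact u1_ff_nonneg k hY _
  simp only [u1_ff_q]
  refine ⟨hsum, ?_⟩
  have hh0 := u1_hh_pos
  have hE0 := u1_E_pos
  have hE1 := u1_E_le
  have hE2 : u1_E < 1 := lt_of_le_of_lt hE1 (by norm_num)
  have hCY : 0 < u1_C k / Y := div_pos (u1_C_pos k) hY
  set c : ℝ := 7.93 * (u1_C k / Y) with hc
  have hc0 : 0 ≤ c := by positivity
  -- the majorant
  set b : ℤ → ℝ := fun n => if n = 0 then 0 else c * u1_E ^ n.natAbs with hb
  have hg : HasSum (fun n : ℕ => c * u1_E ^ (n + 1)) (c * u1_E / (1 - u1_E)) := by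
    have h1 := (hasSum_geometric_of_lt_one hE0.le hE2).mul_left (c * u1_E)
    rw [← div_eq_mul_inv] at h1
    refine h1.congr_fun ?_
    intro n
    simp only [pow_succ]
    ring
  have hbs : HasSum b (c * u1_E / (1 - u1_E) + b 0 + c * u1_E / (1 - u1_E)) := by
    apply HasSum.of_add_one_of_neg_add_one
    · refine hg.congr_fun ?_
      intro n
      rw [hb]
      have h1 : ((n : ℤ) + 1) ≠ 0 := by omega
      simp only [h1, if_false]
      congr 2
    · refine hg.congr_fun ?_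
      intro n
      rw [hb]
      have h1 : (-((n : ℤ) + 1)) ≠ 0 := by omega
      simp only [h1, if_false]
      congr 2
  have hGs : Summable (fun n : ℤ => u1_G k Y (n / hh)) := by
    refine Summable.of_norm_bounded_eventually (g := b) hbs.summable ?_
    have : ∀ᶠ n : ℤ in cofinite, n ≠ 0 := by
      have : ({0} : Set ℤ).Finite := Set.finite_singleton 0
      exact this.compl_mem_cofinite
    filter_upwards [this] with n hn
    rw [hb]
    simp only [hn, if_false]
    exact u1_G_le k hY n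
  have hFs : Summable (fun n : ℤ => 𝓕 (u1_g k Y) (n : ℝ)) := by
    simp only [u1_g_fourier]
    exact hGs.mul_left _
  have hP := Real.tsum_eq_tsum_fourier_of_rpow_decay_of_summable (u1_g_cont k Y)
    (by norm_num : (1 : ℝ) < 2) (u1_g_bigO k hY) hFs 0
  simp only [zero_add, u1_g_fourier, QuotientAddGroup.mk_zero, fourier_eval_zero, mul_one,
    tsum_mul_left] at hP
  have hP2 : (hh : ℂ) * ∑' n : ℤ, u1_g k Y n = ∑' n : ℤ, u1_G k Y (n / hh) := by
    rw [hP, ← mul_assoc, mul_inv_cancel₀ (by exact_mod_cast hh0.ne'), one_mul]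
  have h0 : u1_G k Y ((0 : ℤ) / hh) = ((∫ t : ℝ, u1_ff k Y t : ℝ) : ℂ) := by
    unfold u1_G
    simp only [Int.cast_zero, zero_div, mul_zero, zero_mul, Complex.ofReal_zero, neg_zero,
      Complex.exp_zero, one_mul]
    exact integral_ofReal
  have hP3 : ∑' n : ℤ, u1_G k Y (n / hh) = u1_G k Y ((0 : ℤ) / hh) +
      ∑' n : ℤ, ite (n = 0) 0 (u1_G k Y (n / hh)) := hGs.tsum_eq_add_tsum_ite 0
  have hP4 : ‖∑' n : ℤ, ite (n = 0) 0 (u1_G k Y (n / hh))‖ ≤
      c * u1_E / (1 - u1_E) + b 0 + c * u1_E / (1 - u1_E) := by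
    refine tsum_of_norm_bounded hbs ?_
    intro n
    rw [hb]
    by_cases hn : n = 0
    · simp [hn]
    · simp only [hn, if_false]
      exact u1_G_le k hY n
  have hR : (hh : ℂ) * ∑' n : ℤ, u1_g k Y n = ((hh * ∑' i : ℤ, u1_ff k Y (hh * i) : ℝ) : ℂ) := by
    push_cast
    rfl
  have hfin : ((hh * ∑' i : ℤ, u1_ff k Y (hh * i) : ℝ) : ℂ) - ((∫ t : ℝ, u1_ff k Y t : ℝ) : ℂ) =
      ∑' n : ℤ, ite (n = 0) 0 (u1_G k Y (n / hh)) := by
    rw [← hR, hP2, hP3, h0]
    ring
  have hfin2 : |hh * ∑' i : ℤ, u1_ff k Y (hh * i) - ∫ t : ℝ, u1_ff k Y t| ≤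
      c * u1_E / (1 - u1_E) + b 0 + c * u1_E / (1 - u1_E) := by
    have h1 : |hh * ∑' i : ℤ, u1_ff k Y (hh * i) - ∫ t : ℝ, u1_ff k Y t| =
        ‖((hh * ∑' i : ℤ, u1_ff k Y (hh * i) : ℝ) : ℂ) - ((∫ t : ℝ, u1_ff k Y t : ℝ) : ℂ)‖ := by
      rw [← Complex.ofReal_sub, Complex.norm_real, Real.norm_eq_abs]
    rw [h1, hfin]
    exact hP4
  refine hfin2.trans ?_
  have hb0 : b 0 = 0 := by simp [hb]
  rw [hb0, add_zero]
  have h2 : u1_E / (1 - u1_E) ≤ 1 / (2 ^ 139 - 1) := by
    rw [div_le_div_iff₀ (by linarith) (by norm_num)]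
    have : u1_E * 2 ^ 139 ≤ 1 := by
      have := mul_le_mul_of_nonneg_right hE1 (by norm_num : (0 : ℝ) ≤ 2 ^ 139)
      linarith
    linarith
  have h3 : c * u1_E / (1 - u1_E) + c * u1_E / (1 - u1_E) =
      u1_C k / Y * (15.86 * (u1_E / (1 - u1_E))) := by
    rw [hc]; ring
  have h4 : A k / Y = u1_C k / Y * (1 / 2 ^ 134) := by
    unfold A u1_C
    ring
  rw [h3, h4]
  apply mul_le_mul_of_nonneg_left _ hCY.le
  refine (mul_le_mul_of_nonneg_left h2 (by norm_num)).trans ?_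
  norm_num

end H81.SG
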