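import Pool.Agent.H81.SG.Trap1
import Pool.Agent.H81.SG.Sums

/-!
# Module TRAPN: the trapezoid rule in `n` variables

Adapt `Pool/Agent/H81/L2/TrapN.lean` (complete proof there).  Induction: with `C_n = n 5^n A k`,
`|Fk n k m - hh^n T n k m| ≤ C_n/m`.  Step: `Jn_fubini`, `jrec_prod` (`Pool/Agent/H46/SB/Cross.lean`) write
`Fk (n+1) k m = ∫_v exp (-∑ e^v_i) ∫_t exp (-e^t) φ (Y_v e^(-t/2))`, `φ x = x^k e^(-x)`,
`Y_v = m exp (-(∑ v_i)/2)`; `trap1` at `Y_v` gives
`|hh ∑ exp (-q^i) Fk n k (m p^(-i)) - Fk (n+1) k m| ≤ A k/m ∫ exp (-∑ e^v_i) exp ((∑ v_i)/2) = A k (√π)^n/m`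
(`prod_gamma`), and `hh ∑ exp (-q^i) C_n/(m p^(-i)) ≤ hh · 41 C_n/m ≤ 5 C_n/m` (`thetaOne`, `hh < 0.0976`);
`(√π)^n ≤ 2^n ≤ 5^(n+1)`.  `Fk n k m ≤ (k+1)! (√π)^n/m` (needed for summability).
`trapN'`: divide by `hh^n`, `5/hh ≤ 52`.
-/

namespace H81.SG

open MeasureTheory H46.SB

theorem tn_A_nonneg (k : ℕ) : 0 ≤ A k := by
  unfold A
  positivity

theorem tn_p_pos : 0 < p := by unfold p; norm_num

theorem tn_pk_pos (i : ℤ) : 0 < p ^ i := zpow_pos tn_p_pos i

theorem tn_div (m : ℝ) (i : ℤ) {C : ℝ} : C / (m * p ^ (-i)) = C * p ^ i / m := by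
  have h1 : (0 : ℝ) < p ^ i := tn_pk_pos i
  rw [zpow_neg, ← div_eq_mul_inv, div_div_eq_mul_div]

theorem tn_prod_eq {n : ℕ} (v : Fin n → ℝ) :
    ∏ i, Real.exp (-Real.exp (v i) + 1 / 2 * v i) =
      Real.exp (-(∑ i, Real.exp (v i))) * Real.exp ((∑ i, v i) / 2) := by
  rw [← Real.exp_sum, ← Real.exp_add, Finset.sum_add_distrib, Finset.sum_neg_distrib,
    ← Finset.mul_sum]
  congr 1
  ring

theorem tn_gammaN (n : ℕ) :
    Integrable (fun v : Fin n → ℝ =>
      Real.exp (-(∑ i, Real.exp (v i))) * Real.exp ((∑ i, v i) / 2)) ∧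
    ∫ v : Fin n → ℝ, Real.exp (-(∑ i, Real.exp (v i))) * Real.exp ((∑ i, v i) / 2) =
      (√Real.pi) ^ n := by
  have h := H81.LP.prod_gamma n (a := 1 / 2) (by norm_num)
  simp only [tn_prod_eq] at h
  rw [Real.Gamma_one_half_eq] at h
  exact h

theorem tn_Fk_nonneg (n k : ℕ) {m : ℝ} (hm : 0 < m) : 0 ≤ Fk n k m := by
  unfold Fk H49.SG.Jn
  refine integral_nonneg fun v => ?_
  positivity

theorem tn_Fk_pos (n k : ℕ) {m : ℝ} (hm : 0 < m) : 0 < Fk n k m := by
  have hi := Jn_integrable (dec_pow k) n hm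
  have h1 : (fun v : Fin n → ℝ => Real.exp (-∑ i, Real.exp (v i)) *
      ((m * Real.exp (-(∑ i, v i) / 2)) ^ k * Real.exp (-(m * Real.exp (-(∑ i, v i) / 2))))) =
      fun v : Fin n → ℝ => Real.exp (-∑ i, Real.exp (v i) +
        ((k : ℝ) * (Real.log m + (-(∑ i, v i) / 2)) +
          -(m * Real.exp (-(∑ i, v i) / 2)))) := by
    funext v
    have h2 : m * Real.exp (-(∑ i, v i) / 2) = Real.exp (Real.log m + (-(∑ i, v i) / 2)) := by
      rw [Real.exp_add, Real.exp_log hm]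
    rw [Real.exp_add, Real.exp_add, Real.exp_nat_mul, ← h2]
  unfold Fk H49.SG.Jn
  rw [h1] at hi ⊢
  exact integral_exp_pos hi

theorem tn_Fk_le (n k : ℕ) {m : ℝ} (hm : 0 < m) :
    Fk n k m ≤ ((k + 1).factorial : ℝ) * (√Real.pi) ^ n / m := by
  obtain ⟨hg1, hg2⟩ := tn_gammaN n
  have hk : ∀ z : ℝ, 0 < z → z ^ k * Real.exp (-z) ≤ ((k + 1).factorial : ℝ) / z := by
    intro z hz
    rw [le_div_iff₀ hz]
    have h1 : z ^ (k + 1) / (k + 1).factorial ≤ Real.exp z :=
      Real.pow_div_factorial_le_exp z hz.le _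
    rw [div_le_iff₀ (by positivity)] at h1
    calc z ^ k * Real.exp (-z) * z = z ^ (k + 1) * Real.exp (-z) := by ring
      _ ≤ (Real.exp z * (k + 1).factorial) * Real.exp (-z) :=
          mul_le_mul_of_nonneg_right h1 (Real.exp_pos _).le
      _ = (k + 1).factorial * (Real.exp z * Real.exp (-z)) := by ring
      _ = (k + 1).factorial := by rw [← Real.exp_add]; simp
  have h1 : Fk n k m ≤ ∫ v : Fin n → ℝ, (((k + 1).factorial : ℝ) / m) *
      (Real.exp (-(∑ i, Real.exp (v i))) * Real.exp ((∑ i, v i) / 2)) := by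
    unfold Fk H49.SG.Jn
    refine integral_mono (Jn_integrable (dec_pow k) n hm) (hg1.const_mul _) ?_
    intro v
    have h2 := hk (m * Real.exp (-(∑ i, v i) / 2)) (by positivity)
    calc Real.exp (-∑ i, Real.exp (v i)) * ((m * Real.exp (-(∑ i, v i) / 2)) ^ k *
          Real.exp (-(m * Real.exp (-(∑ i, v i) / 2))))
        ≤ Real.exp (-∑ i, Real.exp (v i)) *
            (((k + 1).factorial : ℝ) / (m * Real.exp (-(∑ i, v i) / 2))) :=
          mul_le_mul_of_nonneg_left h2 (Real.exp_pos _).le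
      _ = (((k + 1).factorial : ℝ) / m) *
            (Real.exp (-(∑ i, Real.exp (v i))) * Real.exp ((∑ i, v i) / 2)) := by
          rw [div_mul_eq_div_div, neg_div, Real.exp_neg ((∑ i, v i) / 2)]
          rw [div_inv_eq_mul]
          ring
  refine h1.trans (le_of_eq ?_)
  rw [integral_const_mul, hg2]
  ring

theorem tn_summF (n k : ℕ) {m : ℝ} (hm : 0 < m) :
    Summable (fun i : ℤ => Real.exp (-(q ^ i)) * Fk n k (m * p ^ (-i))) := by
  have h1 : Summable (fun i : ℤ => (((k + 1).factorial : ℝ) * (√Real.pi) ^ n / m) *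
      (Real.exp (-(q ^ i)) * p ^ i)) := thetaOne.1.mul_left _
  refine Summable.of_nonneg_of_le (fun i => ?_) (fun i => ?_) h1
  · exact mul_nonneg (Real.exp_pos _).le (tn_Fk_nonneg n k (mul_pos hm (tn_pk_pos (-i))))
  · have h2 := tn_Fk_le n k (mul_pos hm (tn_pk_pos (-i)))
    rw [tn_div m i] at h2
    calc Real.exp (-(q ^ i)) * Fk n k (m * p ^ (-i))
        ≤ Real.exp (-(q ^ i)) * (((k + 1).factorial : ℝ) * (√Real.pi) ^ n * p ^ i / m) :=
          mul_le_mul_of_nonneg_left h2 (Real.exp_pos _).le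
      _ = (((k + 1).factorial : ℝ) * (√Real.pi) ^ n / m) * (Real.exp (-(q ^ i)) * p ^ i) := by
          ring

theorem mul_sub_left_distrib_hh (h P a b : ℝ) : P * (h * a - b) = h * (P * a) - P * b := by
  ring

theorem tn_b (n k : ℕ) {m : ℝ} (hm : 0 < m) :
    |hh * ∑' i : ℤ, Real.exp (-(q ^ i)) * Fk n k (m * p ^ (-i)) - Fk (n + 1) k m| ≤
      A k * (√Real.pi) ^ n / m := by
  set T' := ∑' i : ℤ, Real.exp (-(q ^ i)) * Fk n k (m * p ^ (-i)) with hTdef
  let φ : ℝ → ℝ := fun z => z ^ k * Real.exp (-z)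
  have hφ : Dec φ := dec_pow k
  let Y : (Fin n → ℝ) → ℝ := fun v => m * Real.exp (-(∑ i, v i) / 2)
  let P : (Fin n → ℝ) → ℝ := fun v => Real.exp (-(∑ i, Real.exp (v i)))
  have hY : ∀ v, 0 < Y v := fun v => by simp only [Y]; positivity
  let F : ℤ → (Fin n → ℝ) → ℝ := fun i v =>
    Real.exp (-(q ^ i)) * (Real.exp (-(∑ j, Real.exp (v j))) *
      φ ((m * p ^ (-i)) * Real.exp (-(∑ j, v j) / 2)))
  have hF : ∀ i v, F i v = P v * (Real.exp (-(q ^ i)) *
      ((Y v * p ^ (-i)) ^ k * Real.exp (-(Y v * p ^ (-i))))) := by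
    intro i v
    simp only [F, P, Y, φ]
    have h1 : m * p ^ (-i) * Real.exp (-(∑ j, v j) / 2) =
        m * Real.exp (-(∑ j, v j) / 2) * p ^ (-i) := by ring
    rw [h1]
    ring
  have hFi : ∀ i, Integrable (F i) := fun i =>
    (Jn_integrable hφ n (mul_pos hm (tn_pk_pos (-i)))).const_mul _
  have hFint : ∀ i, ∫ v, F i v = Real.exp (-(q ^ i)) * Fk n k (m * p ^ (-i)) := by
    intro i
    simp only [F]
    rw [integral_const_mul]
    rfl
  have hFnn : ∀ i v, 0 ≤ F i v := by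
    intro i v
    rw [hF]
    have h1 := hY v
    have h2 := tn_pk_pos (-i)
    positivity
  have hFnorm : ∀ i, ∫ v, ‖F i v‖ = Real.exp (-(q ^ i)) * Fk n k (m * p ^ (-i)) := by
    intro i
    rw [← hFint i]
    congr 1
    funext v
    exact Real.norm_of_nonneg (hFnn i v)
  have hsum := tn_summF n k hm
  have hTA : T' = ∫ v, ∑' i, F i v := by
    rw [← integral_tsum_of_summable_integral_norm hFi (by simpa only [hFnorm] using hsum)]
    simp only [hFint]
    rfl
  have hTpos : 0 < T' := by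
    have h0 : 0 < Real.exp (-(q ^ (0 : ℤ))) * Fk n k (m * p ^ (-(0 : ℤ))) :=
      mul_pos (Real.exp_pos _) (tn_Fk_pos n k (mul_pos hm (tn_pk_pos (-(0 : ℤ)))))
    refine hsum.tsum_pos (fun i => ?_) 0 h0
    exact mul_nonneg (Real.exp_pos _).le (tn_Fk_nonneg n k (mul_pos hm (tn_pk_pos (-i))))
  have hAint : Integrable (fun v => ∑' i, F i v) := by
    apply Integrable.of_integral_ne_zero
    rw [← hTA]
    exact hTpos.ne'
  have hAeq : ∀ v, ∑' i, F i v = P v * ∑' i : ℤ, Real.exp (-(q ^ i)) *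
      ((Y v * p ^ (-i)) ^ k * Real.exp (-(Y v * p ^ (-i)))) := by
    intro v
    simp only [hF]
    rw [tsum_mul_left]
  obtain ⟨hprod, hK⟩ := jrec_prod hφ n hm
  have hBeq : ∀ v : Fin n → ℝ, ∫ t : ℝ, Real.exp (-Real.exp t) *
      (Real.exp (-∑ j, Real.exp (v j)) *
        φ ((m * Real.exp (-t / 2)) * Real.exp (-(∑ j, v j) / 2))) =
      P v * ∫ t : ℝ, Real.exp (-Real.exp t) *
        ((Y v * Real.exp (-t / 2)) ^ k * Real.exp (-(Y v * Real.exp (-t / 2)))) := by
    intro v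
    rw [← integral_const_mul]
    congr 1
    funext t
    simp only [P, Y, φ]
    have h1 : m * Real.exp (-t / 2) * Real.exp (-(∑ j, v j) / 2) =
        m * Real.exp (-(∑ j, v j) / 2) * Real.exp (-t / 2) := by ring
    rw [h1]
    ring
  have hBint : Integrable (fun v : Fin n → ℝ =>
      P v * ∫ t : ℝ, Real.exp (-Real.exp t) *
        ((Y v * Real.exp (-t / 2)) ^ k * Real.exp (-(Y v * Real.exp (-t / 2))))) := by
    have h := hprod.integral_prod_right
    simpa only [hBeq] using h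
  have hKB : Fk (n + 1) k m = ∫ v : Fin n → ℝ,
      P v * ∫ t : ℝ, Real.exp (-Real.exp t) *
        ((Y v * Real.exp (-t / 2)) ^ k * Real.exp (-(Y v * Real.exp (-t / 2)))) := by
    have h1 : Fk (n + 1) k m = H49.SG.Jn (n + 1) φ m := rfl
    rw [h1, hK, integral_prod_symm _ hprod]
    simp only [hBeq]
  have hdiff : hh * T' - Fk (n + 1) k m = ∫ v : Fin n → ℝ,
      (hh * (P v * ∑' i : ℤ, Real.exp (-(q ^ i)) *
        ((Y v * p ^ (-i)) ^ k * Real.exp (-(Y v * p ^ (-i))))) -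
        P v * ∫ t : ℝ, Real.exp (-Real.exp t) *
          ((Y v * Real.exp (-t / 2)) ^ k * Real.exp (-(Y v * Real.exp (-t / 2))))) := by
    rw [integral_sub _ hBint, integral_const_mul, ← hKB, hTA]
    · simp only [hAeq]
    · apply Integrable.const_mul
      simpa only [hAeq] using hAint
  obtain ⟨hg1, hg2⟩ := tn_gammaN n
  have hbound : ∀ v : Fin n → ℝ,
      ‖hh * (P v * ∑' i : ℤ, Real.exp (-(q ^ i)) *
        ((Y v * p ^ (-i)) ^ k * Real.exp (-(Y v * p ^ (-i))))) -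
        P v * ∫ t : ℝ, Real.exp (-Real.exp t) *
          ((Y v * Real.exp (-t / 2)) ^ k * Real.exp (-(Y v * Real.exp (-t / 2))))‖ ≤
      (A k / m) * (Real.exp (-(∑ i, Real.exp (v i))) * Real.exp ((∑ i, v i) / 2)) := by
    intro v
    have h1 := (trap1 k (hY v)).2
    have hP : 0 < P v := Real.exp_pos _
    rw [← mul_sub_left_distrib_hh hh (P v), Real.norm_eq_abs, abs_mul, abs_of_pos hP]
    refine (mul_le_mul_of_nonneg_left h1 hP.le).trans (le_of_eq ?_)
    simp only [P, Y]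
    rw [div_mul_eq_div_div, neg_div, Real.exp_neg ((∑ i, v i) / 2), div_inv_eq_mul]
    ring
  calc |hh * T' - Fk (n + 1) k m| = ‖hh * T' - Fk (n + 1) k m‖ := (Real.norm_eq_abs _).symm
    _ ≤ ∫ v : Fin n → ℝ, (A k / m) *
        (Real.exp (-(∑ i, Real.exp (v i))) * Real.exp ((∑ i, v i) / 2)) := by
        rw [hdiff]
        exact norm_integral_le_of_norm_le (hg1.const_mul _) (Filter.Eventually.of_forall hbound)
    _ = A k * (√Real.pi) ^ n / m := by
        rw [integral_const_mul, hg2]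
        ring

theorem trapN (n k : ℕ) {m : ℝ} (hm : 0 < m) :
    |Fk n k m - hh ^ n * T n k m| ≤ n * 5 ^ n * A k / m := by
  have hhb := hh_bounds
  have hhpos : 0 < hh := by linarith [hhb.1]
  have hA := tn_A_nonneg k
  induction n generalizing m with
  | zero =>
    unfold Fk
    rw [Jn_zero]
    simp [T]
  | succ n ih =>
    set T' := ∑' i : ℤ, Real.exp (-(q ^ i)) * Fk n k (m * p ^ (-i)) with hTdef
    have hsumK := tn_summF n k hm
    have hsumS := T_summable n k hm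
    have hb := tn_b n k hm
    rw [← hTdef] at hb
    -- part (a)
    have h2 : (fun i : ℤ => Real.exp (-(q ^ i)) * (hh ^ n * T n k (m * p ^ (-i)))) =
        fun i : ℤ => hh ^ n * (Real.exp (-(q ^ i)) * T n k (m * p ^ (-i))) := by
      funext i
      ring
    have hS : hh ^ (n + 1) * T (n + 1) k m =
        hh * ∑' i : ℤ, Real.exp (-(q ^ i)) * (hh ^ n * T n k (m * p ^ (-i))) := by
      have h1 : T (n + 1) k m = ∑' i : ℤ, Real.exp (-(q ^ i)) * T n k (m * p ^ (-i)) := rfl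
      rw [h1, h2, tsum_mul_left]
      ring
    have hsumS' : Summable
        (fun i : ℤ => Real.exp (-(q ^ i)) * (hh ^ n * T n k (m * p ^ (-i)))) := by
      rw [h2]
      exact hsumS.mul_left _
    have hC0 : 0 ≤ (n : ℝ) * 5 ^ n * A k / m := by positivity
    have hTS : |T' - ∑' i : ℤ, Real.exp (-(q ^ i)) * (hh ^ n * T n k (m * p ^ (-i)))| ≤
        ((n : ℝ) * 5 ^ n * A k / m) * 41 := by
      rw [hTdef, ← hsumK.tsum_sub hsumS', ← Real.norm_eq_abs]
      have hmaj : Summable (fun i : ℤ => ((n : ℝ) * 5 ^ n * A k / m) *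
          (Real.exp (-(q ^ i)) * p ^ i)) := thetaOne.1.mul_left _
      have hpt : ∀ i : ℤ, ‖Real.exp (-(q ^ i)) * Fk n k (m * p ^ (-i)) -
          Real.exp (-(q ^ i)) * (hh ^ n * T n k (m * p ^ (-i)))‖ ≤
          ((n : ℝ) * 5 ^ n * A k / m) * (Real.exp (-(q ^ i)) * p ^ i) := by
        intro i
        have h1 := ih (mul_pos hm (tn_pk_pos (-i)))
        rw [tn_div m i] at h1
        rw [← mul_sub, Real.norm_eq_abs, abs_mul, abs_of_pos (Real.exp_pos _)]
        calc Real.exp (-(q ^ i)) * |Fk n k (m * p ^ (-i)) - hh ^ n * T n k (m * p ^ (-i))|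
            ≤ Real.exp (-(q ^ i)) * ((n : ℝ) * 5 ^ n * A k * p ^ i / m) :=
              mul_le_mul_of_nonneg_left h1 (Real.exp_pos _).le
          _ = ((n : ℝ) * 5 ^ n * A k / m) * (Real.exp (-(q ^ i)) * p ^ i) := by ring
      refine (tsum_of_norm_bounded hmaj.hasSum hpt).trans ?_
      rw [tsum_mul_left]
      exact mul_le_mul_of_nonneg_left thetaOne.2 hC0
    have ha : |hh * T' - hh ^ (n + 1) * T (n + 1) k m| ≤
        (n : ℝ) * 5 ^ (n + 1) * A k / m := by
      rw [hS, ← mul_sub, abs_mul, abs_of_pos hhpos]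
      calc hh * |T' - ∑' i : ℤ, Real.exp (-(q ^ i)) * (hh ^ n * T n k (m * p ^ (-i)))|
          ≤ hh * (((n : ℝ) * 5 ^ n * A k / m) * 41) :=
            mul_le_mul_of_nonneg_left hTS hhpos.le
        _ = (hh * 41) * ((n : ℝ) * 5 ^ n * A k / m) := by ring
        _ ≤ 5 * ((n : ℝ) * 5 ^ n * A k / m) := by
            apply mul_le_mul_of_nonneg_right _ hC0
            linarith [hhb.2]
        _ = (n : ℝ) * 5 ^ (n + 1) * A k / m := by ring
    have hpi : √Real.pi ≤ 2 := by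
      rw [Real.sqrt_le_left (by norm_num)]
      have := Real.pi_lt_d2
      norm_num
      linarith
    have hb' : |hh * T' - Fk (n + 1) k m| ≤ 5 ^ (n + 1) * A k / m := by
      refine hb.trans ?_
      apply div_le_div_of_nonneg_right _ hm.le
      rw [mul_comm]
      apply mul_le_mul_of_nonneg_right _ hA
      calc (√Real.pi) ^ n ≤ 2 ^ n := pow_le_pow_left₀ (Real.sqrt_nonneg _) hpi n
        _ ≤ 5 ^ n := pow_le_pow_left₀ (by norm_num) (by norm_num) n
        _ ≤ 5 ^ (n + 1) := pow_le_pow_right₀ (by norm_num) (by omega)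
    have htri : |Fk (n + 1) k m - hh ^ (n + 1) * T (n + 1) k m| ≤
        |hh * T' - Fk (n + 1) k m| + |hh * T' - hh ^ (n + 1) * T (n + 1) k m| := by
      have h1 : Fk (n + 1) k m - hh ^ (n + 1) * T (n + 1) k m =
          -(hh * T' - Fk (n + 1) k m) + (hh * T' - hh ^ (n + 1) * T (n + 1) k m) := by ring
      rw [h1]
      refine (abs_add_le _ _).trans ?_
      rw [abs_neg]
    refine htri.trans ?_
    calc |hh * T' - Fk (n + 1) k m| + |hh * T' - hh ^ (n + 1) * T (n + 1) k m|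
        ≤ 5 ^ (n + 1) * A k / m + (n : ℝ) * 5 ^ (n + 1) * A k / m := add_le_add hb' ha
      _ = ((n + 1 : ℕ) : ℝ) * 5 ^ (n + 1) * A k / m := by
          push_cast
          ring

theorem trapN' (n k : ℕ) {m : ℝ} (hm : 0 < m) :
    |Fk n k m / hh ^ n - T n k m| ≤ n * 52 ^ n * A k / m := by
  have hhb := hh_bounds
  have hhpos : 0 < hh := by linarith [hhb.1]
  have hA := tn_A_nonneg k
  have h := trapN n k hm
  have h1 : Fk n k m / hh ^ n - T n k m = (Fk n k m - hh ^ n * T n k m) / hh ^ n := by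
    field_simp
  rw [h1, abs_div, abs_of_pos (pow_pos hhpos n), div_le_iff₀ (pow_pos hhpos n)]
  refine h.trans ?_
  have h2 : (5 : ℝ) ^ n ≤ (52 * hh) ^ n := by
    apply pow_le_pow_left₀ (by norm_num)
    linarith [hhb.1]
  calc (n : ℝ) * 5 ^ n * A k / m ≤ n * (52 * hh) ^ n * A k / m := by
        apply div_le_div_of_nonneg_right _ hm.le
        apply mul_le_mul_of_nonneg_right _ hA
        exact mul_le_mul_of_nonneg_left h2 (Nat.cast_nonneg _)
    _ = n * 52 ^ n * A k / m * hh ^ n := by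
        rw [mul_pow]
        ring

end H81.SG
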